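import Pool.Agent.MP_e50591_al.H22.Loop

/-!
Descending chains of circles and a bound for the length of a monotone path.
-/

namespace Pool.Agent.MP_e50591_al.H22

open Finsupp Submodule FreeGroup Pool.Agent.MP_e50591_al.H50
open scoped Classical

variable {α : Type} {V : Type} [MulAction (FreeGroup α) V] {m : ℕ} {U : ZMod m → α × Bool}
  {S : Finset (V × ZMod m)} {D : ℕ} {EP : Finset (V × α)}
  {P Q : V × ZMod m → V × ZMod m → Prop} {top bot : ZMod m}

/-- The circle of the top strand `t'` lies below `t` and contains the edge of `t`. -/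
def Ch (U : ZMod m → α × Bool) (P Q : V × ZMod m → V × ZMod m → Prop) (top : ZMod m)
    (S : Finset (V × ZMod m)) (t t' : V × ZMod m) : Prop :=
  t' ∈ S ∧ t'.2 = top ∧ Lt P Q t' t ∧ ∃ i, ed U ((nx U)^[i] t') = ed U t

lemma on_circle {s t : V × ZMod m} {i : ℕ} (e : ed U ((nx U)^[i] s) = ed U t) :
    ∃ j, t.1 = ((nx U)^[j] s).1 := by
  rcases ed_eq e with ⟨g, -⟩ | ⟨-, g, -⟩
  · exact ⟨i, g.symm⟩
  · exact ⟨i + 1, by rw [Function.iterate_succ_apply', g]⟩

lemma down (h : Ord U D P Q top bot) (hg : Good U D EP S) {t t' : V × ZMod m}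
    (hr : Relation.ReflTransGen (Ch U P Q top S) t t') : P t' t ∧ ∃ d, Pth U t.1 d t'.1 ∧
      (∀ x ∈ d, x ∈ S ∧ Lt P Q x t ∧ P t' x) ∧ d.Pairwise fun a b => Lc P Q a b a := by
  induction hr using Relation.ReflTransGen.head_induction_on with
  | refl => exact ⟨h.pr _, [], .nil _, by simp, .nil⟩
  | @head t s h1 _ ih =>
    obtain ⟨g1, d, g2, g3, g4⟩ := ih
    obtain ⟨k1, -, k2, i, k3⟩ := h1
    obtain ⟨j, k4⟩ := on_circle k3
    have e : ∀ a ∈ (arc U s j).reverse, a ∈ S ∧ Eqv P Q s a := fun a ha => by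
      obtain ⟨i, -, rfl⟩ := mem_arc.1 (List.mem_reverse.1 ha)
      exact ⟨hg.iter k1 i, h.it s i⟩
    refine ⟨h.pt _ _ _ g1 k2.1, (arc U s j).reverse ++ d, k4 ▸ (pth_arc s j).reverse.append g2,
      fun x hx => ?_, List.pairwise_append.2 ⟨List.pairwise_of_forall_mem_list
        fun a ha b hb => ?_, g4, fun a ha b hb => ?_⟩⟩
    · rcases List.mem_append.1 hx with hx | hx
      · exact ⟨(e x hx).1, h.lt_left k2 (e x hx).2, h.pt _ _ _ g1 (e x hx).2.1⟩
      · exact ⟨(g3 x hx).1, h.lt_trans (g3 x hx).2.1 k2, (g3 x hx).2.2⟩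
    · have := h.et (e b hb).2.symm (e a ha).2
      exact ⟨this.1, fun _ => this.2.2.1⟩
    · have := h.lt_right (g3 b hb).2.1 (e a ha).2
      exact ⟨this.1, fun g => (this.2 g).1⟩

lemma reach_top {t t' : V × ZMod m} (hr : Relation.ReflTransGen (Ch U P Q top S) t t')
    (ht : t ∈ S ∧ t.2 = top) : t' ∈ S ∧ t'.2 = top := by
  induction hr with
  | refl => exact ht
  | tail _ h _ => exact ⟨h.1, h.2.1⟩

variable [NeZero m]

lemma two_tops (h : Ord U D P Q top bot) (hD : 2 * m ≤ D) (hmD : m ∣ D) (hg : Good U D EP S)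
    {t t₁ t₂ : V × ZMod m} (ht : t ∈ S) {n : ℕ} (n1 : m ∣ n) (n2 : 0 < n) (n3 : n < D)
    (r₁ : Relation.ReflTransGen (Ch U P Q top S) t t₁)
    (r₂ : Relation.ReflTransGen (Ch U P Q top S) ((nx U)^[n] t) t₂) {r : List (V × ZMod m)}
    (p : Pth U t₂.1 r t₁.1) (pw : r.Pairwise P)
    (hr : ∀ x ∈ r, P x t₁ ∧ ¬ P t₁ x ∧ ed U x ∈ EP) : False := by
  obtain ⟨a1, d₁, a2, a3, a4⟩ := down h hg r₁
  obtain ⟨-, d₂, b2, b3, b4⟩ := down h hg r₂
  obtain ⟨i, -, i2, i3⟩ := exists_pos t.2 bot 0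
  have n4 : m ≤ n := Nat.le_of_dvd n2 n1
  have n5 : m ≤ D - n := Nat.le_of_dvd (by omega) (Nat.dvd_sub hmD n1)
  have b5 : ∀ x ∈ d₂, Lt P Q x t := fun x hx => h.lt_right (b3 x hx).2.1 (h.it t n).symm
  have c1 : ∀ x ∈ r, ¬ P t x := fun x hx g => (hr x hx).2.1 (h.pt _ _ _ a1 g)
  refine noLoop h hD hmD hg t n d₂ (r ++ d₁.reverse) ⟨⟨i, by omega, i3⟩, ⟨i + n, by omega,
    by omega, by rw [Nat.cast_add, (ZMod.natCast_eq_zero_iff _ _).2 n1, add_zero, i3]⟩,
    b2.append (p.append a2.reverse), fun x hx => ?_,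
    b4.imp_of_mem fun ha _ g => h.lc_base g (b5 _ ha).1, List.pairwise_append.2
      ⟨pw.imp_of_mem fun ha _ g => ⟨g, fun k => absurd k (c1 _ ha)⟩, List.pairwise_reverse.2
        (a4.imp_of_mem fun ha _ g => h.lc_base g (a3 _ ha).2.1.1), fun a ha b hb =>
        ⟨h.pt _ _ _ (hr a ha).1 (a3 b (List.mem_reverse.1 hb)).2.2, fun k => absurd k (c1 _ ha)⟩⟩⟩
    fun x hx => ?_
  · simp only [List.mem_append, List.mem_reverse] at hx
    rcases hx with hx | hx | hx
    · exact b5 x hx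
    · exact ⟨h.pt _ _ _ (hr x hx).1 a1, fun k => absurd k (c1 x hx)⟩
    · exact (a3 x hx).2.1
  · simp only [List.mem_append, List.mem_reverse, mem_arc] at hx
    rcases hx with ⟨i, -, rfl⟩ | hx | hx | hx
    · exact Finset.mem_union_left _ (Finset.mem_image_of_mem _ (hg.iter ht i))
    · exact Finset.mem_union_left _ (Finset.mem_image_of_mem _ (b3 x hx).1)
    · exact Finset.mem_union_right _ (hr x hx).2.2
    · exact Finset.mem_union_left _ (Finset.mem_image_of_mem _ (a3 x hx).1)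

lemma disjoint_tops (h : Ord U D P Q top bot) (hD : 2 * m ≤ D) (hmD : m ∣ D) (hg : Good U D EP S)
    {t t₁ t₂ : V × ZMod m} (ht : t ∈ S) (ht' : t.2 = top)
    (r₁ : Relation.ReflTransGen (Ch U P Q top S) t t₁)
    (r₂ : Relation.ReflTransGen (Ch U P Q top S) ((nx U)^[m] t) t₂) : ed U t₁ ≠ ed U t₂ := by
  intro e
  have hm : 0 < m := Nat.pos_of_neZero m
  have g1 := (reach_top r₁ ⟨ht, ht'⟩).2
  have g2 := (reach_top r₂ ⟨hg.iter ht m, by simpa [iter_snd] using ht'⟩).2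
  obtain rfl : t₁ = t₂ := (h.top _ _ g2 e).resolve_right fun g => (h.top _ _ g1 e.symm).elim
    (fun k => Ord.lt_not g (k ▸ h.it t₂ 0)) fun k => Ord.lt_not (h.lt_trans g k) (h.it t₁ 0)
  exact two_tops h hD hmD hg ht dvd_rfl hm (by omega) r₁ r₂ (.nil _) .nil (by simp)

/-- A chain from `t` ends on the path at an edge with a strictly lower carrier. -/
def RR (U : ZMod m → α × Bool) (P Q : V × ZMod m → V × ZMod m → Prop) (top : ZMod m)
    (S : Finset (V × ZMod m)) (R : List (V × ZMod m)) (t : V × ZMod m) : Prop :=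
  ∃ t', Relation.ReflTransGen (Ch U P Q top S) t t' ∧ ∃ x ∈ R, ed U x = ed U t' ∧ ¬ P t' x

lemma ordered_tops (h : Ord U D P Q top bot) (hD : 2 * m ≤ D) (hmD : m ∣ D) (hg : Good U D EP S)
    {t t₁ t₂ : V × ZMod m} (ht : t ∈ S) (ht' : t.2 = top) {n : ℕ} (n1 : m ∣ n) (n2 : 0 < n)
    (n3 : n < D) (r₁ : Relation.ReflTransGen (Ch U P Q top S) t t₁)
    (r₂ : Relation.ReflTransGen (Ch U P Q top S) ((nx U)^[n] t) t₂) {y y' : V}
    {l₁ l l₂ : List (V × ZMod m)} {x₁ x₂ : V × ZMod m}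
    (p : Pth U y (l₁ ++ x₂ :: (l ++ x₁ :: l₂)) y') (pw : (l₁ ++ x₂ :: (l ++ x₁ :: l₂)).Pairwise P)
    (hE : ∀ x ∈ l₁ ++ x₂ :: (l ++ x₁ :: l₂), ed U x ∈ EP) (e₁ : ed U x₁ = ed U t₁)
    (e₂ : ed U x₂ = ed U t₂) (g : ¬ P t₁ x₁) : False := by
  obtain ⟨a, a', b, b', -, p1, p2, p3, -⟩ := p.two
  obtain ⟨r, g1, g2⟩ : ∃ r, r.Sublist (x₂ :: (l ++ [x₁])) ∧ Pth U t₂.1 r t₁.1 := by
    obtain ⟨r, g1, g2⟩ : ∃ r, r.Sublist (l ++ [x₁]) ∧ Pth U a' r t₁.1 := by
      rcases (p3.of_ed e₁).ends (Or.inl ⟨rfl, rfl⟩) with k | k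
      · exact ⟨l, List.sublist_append_left _ _, k ▸ p2⟩
      · exact ⟨_, List.Sublist.refl _, k ▸ p2.append (.cons p3 (.nil _))⟩
    rcases (p1.of_ed e₂).ends (Or.inl ⟨rfl, rfl⟩) with k | k
    · exact ⟨x₂ :: r, g1.cons_cons _, k ▸ .cons p1 g2⟩
    · exact ⟨r, g1.cons _, k ▸ g2⟩
  have s1 : (x₂ :: (l ++ [x₁])).Sublist (l₁ ++ x₂ :: (l ++ x₁ :: l₂)) :=
    (List.Sublist.cons_cons _ ((List.Sublist.refl l).append
      (by simp : [x₁].Sublist (x₁ :: l₂)))).trans (List.sublist_append_right _ _)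
  have s2 : P x₁ t₁ := (h.top _ _ (reach_top r₁ ⟨ht, ht'⟩).2 e₁).elim (fun k => k ▸ h.pr _) And.left
  have s3 : ∀ x ∈ x₂ :: (l ++ [x₁]), P x x₁ := fun x hx => by
    have := pw.sublist s1
    rw [← List.cons_append, List.pairwise_append] at this
    rw [← List.cons_append, List.mem_append, List.mem_singleton] at hx
    exact hx.elim (fun k => this.2.2 x k x₁ (by simp)) fun k => k ▸ h.pr _
  exact two_tops h hD hmD hg ht n1 n2 n3 r₁ r₂ g2 (pw.sublist (g1.trans s1)) fun x hx =>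
    ⟨h.pt _ _ _ (s3 x (g1.subset hx)) s2, fun k => g (h.pt _ _ _ k (s3 x (g1.subset hx))),
      hE x ((g1.trans s1).subset hx)⟩

lemma not_both (h : Ord U D P Q top bot) (hD : 2 * m ≤ D) (hmD : m ∣ D) (hg : Good U D EP S)
    {t : V × ZMod m} (ht : t ∈ S) (ht' : t.2 = top) {y y' : V} {R : List (V × ZMod m)}
    (p : Pth U y R y') (pw : R.Pairwise P) (hE : ∀ x ∈ R, ed U x ∈ EP)
    (h₁ : RR U P Q top S R t) (h₂ : RR U P Q top S R ((nx U)^[m] t)) : False := by
  have hm : 0 < m := Nat.pos_of_neZero m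
  obtain ⟨t₁, r₁, x₁, a1, a2, a3⟩ := h₁
  obtain ⟨t₂, r₂, x₂, b1, b2, b3⟩ := h₂
  rcases two_mem a1 b1 (by
    rintro rfl
    exact disjoint_tops h hD hmD hg ht ht' r₁ r₂ (a2.symm.trans b2)) with
    ⟨l₁, l, l₂, rfl⟩ | ⟨l₁, l, l₂, rfl⟩
  · exact ordered_tops h hD hmD hg (hg.iter ht m) (by simpa [iter_snd] using ht')
      (Nat.dvd_sub hmD dvd_rfl) (by omega) (by omega) r₂ (by
        rwa [← Function.iterate_add_apply, Nat.sub_add_cancel (by omega), hg.per t ht])
      p pw hE b2 a2 b3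
  · exact ordered_tops h hD hmD hg ht ht' dvd_rfl hm (by omega) r₁ r₂ p pw hE a2 b2 a3

lemma top_of_mem (hD : 2 * m ≤ D) (hg : Good U D EP S) (top : ZMod m) {s : V × ZMod m}
    (hs : s ∈ S) : ∃ t ∈ S, t.2 = top ∧ (∃ j, (nx U)^[j] s = t) ∧ ∃ i, (nx U)^[i] t = s := by
  obtain ⟨j, -, j2, j3⟩ := exists_pos s.2 top 0
  exact ⟨_, hg.iter hs j, by rw [iter_snd, j3], ⟨j, rfl⟩, D - j, by
    rw [← Function.iterate_add_apply, Nat.sub_add_cancel (by omega), hg.per s hs]⟩

lemma child (h : Ord U D P Q top bot) (hD : 2 * m ≤ D) (hg : Good U D EP S) {t : V × ZMod m}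
    (ht : t.2 = top) (hf : ¬ Free U S t) : ∃ t', Ch U P Q top S t t' ∧
      Ch U P Q top S t ((nx U)^[m] t') := by
  simp only [Free, not_forall] at hf
  obtain ⟨s, hs, e, hne⟩ := hf
  obtain ⟨t', g1, g2, ⟨j, rfl⟩, i, g3⟩ := top_of_mem hD hg top hs
  have g4 := h.lt_left ((h.top _ _ ht e).resolve_left hne) (h.it s j)
  refine ⟨_, ⟨g1, g2, g4, i, by rw [g3, e]⟩, hg.iter g1 m, by simpa [iter_snd] using g2,
    h.lt_left g4 (h.it _ m), i + (D - m), ?_⟩
  rw [Function.iterate_add_apply, ← Function.iterate_add_apply _ (D - m),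
    Nat.sub_add_cancel (by omega), hg.per _ g1, g3, e]

section Ball

variable [Fintype α]

/-- The ball around a vertex. -/
noncomputable def ball (α : Type) [Fintype α] {V : Type} [MulAction (FreeGroup α) V] (o : V) :
    ℕ → Finset V
  | 0 => {o}
  | r + 1 => ball α o r ∪ (ball α o r ×ˢ (Finset.univ : Finset (α × Bool))).image
      fun p => step p.1 p.2

omit [NeZero m] in
lemma card_ball (o : V) (r : ℕ) : (ball α o r).card ≤ (Fintype.card (α × Bool) + 1) ^ r := by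
  induction r with
  | zero => simp [ball]
  | succ r ih =>
    refine (Finset.card_union_le _ _).trans ((Nat.add_le_add_left Finset.card_image_le _).trans ?_)
    rw [Finset.card_product, Finset.card_univ, pow_succ, Nat.mul_succ, add_comm]
    exact Nat.add_le_add (Nat.mul_le_mul_right _ ih) ih

omit [NeZero m] in
lemma walk_ball {o y : V} {r r' : ℕ} (h : y ∈ ball α o r) (l : List (α × Bool))
    (hl : r + l.length ≤ r') : walk y l ∈ ball α o r' := by
  induction l generalizing y r with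
  | nil =>
    rw [walk_nil]
    induction (show r ≤ r' from hl) with
    | refl => exact h
    | step g ih => exact Finset.mem_union_left _ (ih g)
  | cons a l ih =>
    rw [walk_cons]
    exact ih (r := r + 1) (Finset.mem_union_right _ (Finset.mem_image.2
      ⟨(y, a), by simp [h], rfl⟩)) (by simp at hl; omega)

omit [NeZero m] in
lemma circle_ball {o : V} {r : ℕ} {s : V × ZMod m} (hD : 0 < D) (hs : (nx U)^[D] s = s)
    (h : s.1 ∈ ball α o r) (i : ℕ) : ((nx U)^[i] s).1 ∈ ball α o (r + D) := by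
  rw [← Function.IsPeriodicPt.iterate_mod_apply hs i, iter_nx]
  exact walk_ball h _ (by simpa using (Nat.mod_lt i hD).le)

lemma depth (h : Ord U D P Q top bot) (hD : 2 * m ≤ D) (hmD : m ∣ D) (hg : Good U D EP S)
    {o : V} {z : List (α × Bool)} {R : List (V × ZMod m)}
    (hf : ∀ t ∈ S, t.2 = top → Free U S t → ¬ RR U P Q top S R t → ed U t ∈ edges o z) (k : ℕ) :
    ∀ t ∈ S, t.2 = top → ¬ RR U P Q top S R t → ((edges o z).toFinset.filter fun e =>
      ∃ t', Relation.ReflTransGen (Ch U P Q top S) t t' ∧ ed U t' = e).card ≤ k →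
      t.1 ∈ ball α o (z.length + D * k) := by
  have hm : 0 < m := Nat.pos_of_neZero m
  have ne : ∀ t ∈ S, t.2 = top → ¬ RR U P Q top S R t → ∃ t',
      Relation.ReflTransGen (Ch U P Q top S) t t' ∧ ed U t' ∈ edges o z := fun t ht ht' hr => by
    obtain ⟨t', g1, g2⟩ := h.exists_min
      (T := S.filter fun t' => Relation.ReflTransGen (Ch U P Q top S) t t')
      ⟨t, Finset.mem_filter.2 ⟨ht, .refl⟩⟩
    obtain ⟨g1, g3⟩ := Finset.mem_filter.1 g1
    have g4 := (reach_top g3 ⟨ht, ht'⟩).2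
    refine ⟨t', g3, hf t' g1 g4 (by_contra fun g => ?_) fun ⟨t'', g5, g6⟩ =>
      hr ⟨t'', g3.trans g5, g6⟩⟩
    obtain ⟨t'', g5, -⟩ := child h hD hg g4 g
    exact g2 t'' (Finset.mem_filter.2 ⟨g5.1, g3.tail g5⟩) g5.2.2.1
  induction k with
  | zero =>
    intro t ht ht' hr hc
    obtain ⟨t', g1, g2⟩ := ne t ht ht' hr
    exact absurd (Finset.card_pos.2 ⟨_, Finset.mem_filter.2
      ⟨List.mem_toFinset.2 g2, t', g1, rfl⟩⟩) (not_lt.2 hc)
  | succ k ih =>
    intro t ht ht' hr hc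
    by_cases g : Free U S t
    · obtain ⟨l₁, a, l₂, rfl, e⟩ := mem_edges.1 (hf t ht ht' g hr)
      have h0 : o ∈ ball α o 0 := by simp [ball]
      rcases edge_eq e with ⟨e, -⟩ | ⟨e, -⟩
      · exact e ▸ walk_ball h0 l₁ (by simp; omega)
      · rw [e, step, ← walk_append]
        exact walk_ball h0 _ (by simp; omega)
    obtain ⟨s, g1, g2⟩ := child h hD hg ht' g
    obtain ⟨t', g3, g4⟩ := ne _ g2.1 g2.2.1 fun ⟨t', g3, g4⟩ => hr ⟨t', .head g2 g3, g4⟩
    have := ih s g1.1 g1.2.1 (fun ⟨t', g3, g4⟩ => hr ⟨t', .head g1 g3, g4⟩)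
      (Nat.le_of_lt_succ (lt_of_lt_of_le (Finset.card_lt_card ⟨fun e he => ?_, fun k => ?_⟩) hc))
    · obtain ⟨i, e⟩ := g1.2.2.2
      obtain ⟨j, e⟩ := on_circle e
      rw [e, Nat.mul_succ, ← add_assoc]
      exact circle_ball (by omega) (hg.per s g1.1) this j
    · obtain ⟨k1, t'', k2, k3⟩ := Finset.mem_filter.1 he
      exact Finset.mem_filter.2 ⟨k1, t'', .head g1 k2, k3⟩
    · obtain ⟨-, t'', k2, k3⟩ := Finset.mem_filter.1 (k (Finset.mem_filter.2
        ⟨List.mem_toFinset.2 g4, t', .head g2 g3, rfl⟩))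
      exact disjoint_tops h hD hmD hg g1.1 g1.2.1 k2 g3 k3

omit [Fintype α] [NeZero m] in
lemma length_edges (o : V) (z : List (α × Bool)) : (edges o z).length = z.length := by
  induction z generalizing o with
  | nil => rfl
  | cons a z ih => simp [edges, ih]

theorem bound (h : Ord U D P Q top bot) (hD : 2 * m ≤ D) (hmD : m ∣ D) {o : V}
    {z : List (α × Bool)} {S₀ : Finset (V × ZMod m)} (h₀ : ∀ EP, Good U D EP S₀)
    {lo hi : V × ZMod m} {R₀ : List (V × ZMod m)}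
    (r₀ : Pth U o R₀ (walk o z) ∧ R₀.Pairwise P ∧ ∀ x ∈ R₀, P lo x ∧ P x hi) :
    ∃ R : List (V × ZMod m), (Pth U o R (walk o z) ∧ R.Pairwise P ∧ ∀ x ∈ R, P lo x ∧ P x hi) ∧
      R.length ≤ (Fintype.card (α × Bool) + 1) ^ (z.length + D * z.length + D) * m + z.length := by
  have hm : 0 < m := Nat.pos_of_neZero m
  have hD0 : 0 < D := by omega
  let A : Finset (V × ZMod m) → List (V × ZMod m) → Prop := fun S R =>
    (Pth U o R (walk o z) ∧ R.Pairwise P ∧ ∀ x ∈ R, P lo x ∧ P x hi) ∧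
      Good U D (R.map (ed U) ++ edges o z).toFinset S
  obtain ⟨S, hS, m1⟩ := exists_minimalFor_of_wellFoundedLT (fun S => ∃ R, A S R) Finset.card
    ⟨S₀, R₀, r₀, h₀ _⟩
  obtain ⟨R, ⟨hR, hg⟩, m2⟩ := exists_minimalFor_of_wellFoundedLT (A S) List.length hS
  refine ⟨R, hR, ?_⟩
  obtain ⟨p, pw, hb⟩ := hR
  have hE : ∀ x ∈ R, ed U x ∈ (R.map (ed U) ++ edges o z).toFinset := fun x hx =>
    List.mem_toFinset.2 (List.mem_append_left _ (List.mem_map_of_mem hx))
  have hf : ∀ t ∈ S, t.2 = top → Free U S t → ¬ RR U P Q top S R t → ed U t ∈ edges o z := by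
    intro t ht ht' hf hr
    by_contra g
    have k : ∀ x ∈ R, ed U x = ed U t → ∀ i, P x ((nx U)^[i] t) ∧ P ((nx U)^[i] t) x :=
      fun x hx e i => ⟨h.pt _ _ _ ((h.top _ _ ht' e).elim (fun k => k ▸ h.pr _) And.left)
        (h.it t i).1, h.pt _ _ _ (h.it t i).2.1 (by_contra fun k => hr ⟨t, .refl, x, hx, e, k⟩)⟩
    obtain ⟨R', g1, g2, g3⟩ := push h.pt hD0 (hg.per t ht) p pw k
    obtain ⟨S', k1, k2⟩ := remove (EP' := (R'.map (ed U) ++ edges o z).toFinset) hD0 hg ht hf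
      (fun e he => by
        rcases List.mem_append.1 (List.mem_toFinset.1 he) with he | he
        · obtain ⟨x, hx, rfl⟩ := List.mem_map.1 he
          rcases g3 x hx with ⟨k, -⟩ | ⟨⟨i, -, -, rfl⟩, -⟩
          · exact Finset.mem_union_right _ (hE x k)
          · exact Finset.mem_union_left _ (Finset.mem_image_of_mem _ (hg.iter ht i))
        · exact Finset.mem_union_right _ (List.mem_toFinset.2 (List.mem_append_right _ he)))
      (fun he => by
        obtain ⟨x, hx, e⟩ := List.mem_map.1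
          ((List.mem_append.1 (List.mem_toFinset.1 he)).resolve_right g)
        rcases g3 x hx with ⟨-, k⟩ | ⟨⟨i, i1, i2, rfl⟩, -⟩
        · exact k e
        · exact h.emb t i i1 i2 e)
    refine (m1 ⟨R', ⟨g1, g2, fun x hx => ?_⟩, k2⟩ k1.le).not_gt k1
    rcases g3 x hx with ⟨k, -⟩ | ⟨⟨i, -, -, rfl⟩, x, hx, e⟩
    · exact hb x k
    · exact ⟨h.pt _ _ _ (hb x hx).1 (k x hx e i).1, h.pt _ _ _ (k x hx e i).2 (hb x hx).2⟩
  have nd : (R.map (ed U)).Nodup := by
    by_contra g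
    obtain ⟨e, g⟩ := List.exists_duplicate_iff_not_nodup.2 g
    obtain ⟨l', g1, g2⟩ := List.sublist_map_iff.1 (List.duplicate_iff_sublist.1 g)
    obtain ⟨x, x', rfl, e1, e2⟩ : ∃ x x', l' = [x, x'] ∧ e = ed U x ∧ e = ed U x' := by
      rcases l' with _ | ⟨x, _ | ⟨x', _ | _⟩⟩ <;> simp at g2
      exact ⟨x, x', rfl, g2⟩
    obtain ⟨r₁, r₂, rfl, g3, g4⟩ := List.cons_sublist_iff.1 g1
    obtain ⟨l₁, l₃, rfl⟩ := List.append_of_mem g3
    obtain ⟨l₄, l₂, rfl⟩ := List.append_of_mem (List.singleton_sublist.1 g4)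
    have e3 : l₁ ++ x :: l₃ ++ (l₄ ++ x' :: l₂) = l₁ ++ x :: (l₃ ++ l₄ ++ x' :: l₂) := by simp
    obtain ⟨a, a', b, b', p0, p1, -, p3, p4⟩ := (e3 ▸ p).two
    obtain ⟨R', g5, g6, g7⟩ : ∃ R', R'.Sublist (l₁ ++ x :: l₂) ∧
        R'.length ≤ l₁.length + l₂.length + 1 ∧ Pth U o R' (walk o z) := by
      rcases p1.ends (p3.of_ed (e2.symm.trans e1)).symm with rfl | rfl
      · exact ⟨l₁ ++ l₂, by simp, by simp, p0.append p4⟩
      · exact ⟨_, List.Sublist.refl _, by simp; omega, p0.append (.cons p1 p4)⟩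
    have g8 : R'.Sublist (l₁ ++ x :: l₃ ++ (l₄ ++ x' :: l₂)) := g5.trans (by
      rw [e3]
      exact (List.Sublist.refl _).append (List.Sublist.cons_cons _
        ((List.sublist_cons_self _ _).trans (List.sublist_append_right _ _))))
    have g9 : R'.length < (l₁ ++ x :: l₃ ++ (l₄ ++ x' :: l₂)).length := by simp; omega
    exact (m2 ⟨⟨g7, pw.sublist g8, fun x hx => hb x (g8.subset hx)⟩, good_mono hg fun e he =>
      Finset.mem_union_right _ (List.mem_toFinset.2 (((g8.map _).append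
        (List.Sublist.refl _)).subset (List.mem_toFinset.1 he)))⟩ g9.le).not_gt g9
  have c1 : (R.map (ed U)).toFinset ⊆ S.image (ed U) ∪ (edges o z).toFinset := fun e he => by
    obtain ⟨x, hx, rfl⟩ := List.mem_map.1 (List.mem_toFinset.1 he)
    obtain ⟨c, z1, z2, z3⟩ := p.chain
    by_contra g
    rw [Finset.mem_union, not_or, List.mem_toFinset] at g
    have := span_zero hg (hg.sp (c - ch o z) ((mem_supported' _ _).2 fun e k => by
      simp only [Finset.coe_union, Set.mem_union, Finset.mem_coe, List.mem_toFinset,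
        List.mem_append, not_or] at k
      rw [Finsupp.sub_apply, by_contra fun g => k.2.1 (List.mem_map.2 (z1 e g)),
        by_contra fun g => k.2.2 (ch_apply_ne g), sub_zero])
      (by rw [map_sub, z2, bd_ch, sub_self])) g.1
    rw [Finsupp.sub_apply, by_contra fun k => g.2 (ch_apply_ne k), sub_zero] at this
    exact z3 nd x hx this
  have c0 : (edges o z).toFinset.card ≤ z.length :=
    (List.toFinset_card_le _).trans (length_edges o z).le
  have c2 : S ⊆ ball α o (z.length + D * z.length + D) ×ˢ Finset.univ := fun s hs => by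
    obtain ⟨t, g1, g2, -, i, rfl⟩ := top_of_mem hD hg top hs
    have dp := fun t g1 g2 g3 => depth h hD hmD hg hf z.length t g1 g2 g3
      ((Finset.card_filter_le _ _).trans c0)
    refine Finset.mem_product.2 ⟨?_, Finset.mem_univ _⟩
    by_cases g : RR U P Q top S R t
    · have := circle_ball hD0 (hg.per _ (hg.iter g1 m)) (dp _ (hg.iter g1 m)
        (by simpa [iter_snd] using g2) (not_both h hD hmD hg g1 g2 p pw hE g)) (i + (D - m))
      rwa [Function.iterate_add_apply, ← Function.iterate_add_apply _ (D - m),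
        Nat.sub_add_cancel (by omega), hg.per _ g1] at this
    · exact circle_ball hD0 (hg.per _ g1) (dp t g1 g2 g) i
  have c3 := Finset.card_le_card c2
  rw [Finset.card_product, Finset.card_univ, ZMod.card] at c3
  have c4 := (Finset.card_le_card c1).trans (Finset.card_union_le _ _)
  rw [List.toFinset_card_of_nodup nd, List.length_map] at c4
  have c5 := Finset.card_image_le (s := S) (f := ed U)
  have c6 := Nat.mul_le_mul_right m (card_ball (α := α) o (z.length + D * z.length + D))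
  omega

end Ball

end Pool.Agent.MP_e50591_al.H22
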