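import Pool.Agent.MP_e50591_al.H22.Model
import Pool.Agent.MP_e50591_al.H50.Glue

/-!
From a proper power to a primitive cyclic word, and from the distortion bound to a decision
procedure.
-/

namespace Pool.Agent.MP_e50591_al.H22

open FreeGroup Pool.Agent.MP_e50591_al.H50

variable {α : Type} {m : ℕ} {U : ZMod m → α × Bool}

theorem exists_prim2 {u : List (α × Bool)} (hu : u ≠ []) {k : ℕ} (hk : 2 ≤ k)
    (hw : IsReduced (List.replicate k u).flatten) :
    ∃ (m : ℕ) (_ : NeZero m) (U : ZMod m → α × Bool) (D : ℕ), (∀ j, U (j + 1) ≠ bar (U j)) ∧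
      (∀ i j : ZMod m, (∀ t : ℕ, U (i + t) = U (j + t)) → i = j) ∧ 2 * m ≤ D ∧ m ∣ D ∧
      seg U 0 D = (List.replicate k u).flatten := by
  have hp : 0 < u.length := List.length_pos_iff.2 hu
  let f : ℕ → α × Bool := fun t => u[t % u.length]'(Nat.mod_lt _ hp)
  let sh : (ℕ → α × Bool) → ℕ → α × Bool := fun g t => g (t + 1)
  have s1 : ∀ n g t, sh^[n] g t = g (t + n) := by
    intro n
    induction n with
    | zero => intro g t; rfl
    | succ n ih => intro g t; rw [Function.iterate_succ_apply, ih]; rfl
  have s2 : Function.IsPeriodicPt sh u.length f := funext fun t => by rw [s1]; simp [f]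
  have s3 := s2.minimalPeriod_pos hp
  have s4 := s2.minimalPeriod_dvd
  have s5 := Function.iterate_injOn_Iio_minimalPeriod (f := sh) (x := f)
  have s6 : ∀ t, f (t % Function.minimalPeriod sh f) = f t := fun t => by
    simpa [s1] using congrFun (Function.iterate_mod_minimalPeriod_eq (f := sh) (x := f) (n := t)) 0
  generalize Function.minimalPeriod sh f = m at s3 s4 s5 s6
  have : NeZero m := ⟨s3.ne'⟩
  obtain ⟨U, hU⟩ : ∃ U : ZMod m → α × Bool, ∀ t : ℕ, U t = f t :=
    ⟨fun j => f j.val, fun t => by simp only [ZMod.val_natCast, s6]⟩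
  have s7 : seg U 0 u.length = u := by
    rw [seg_eq]
    refine List.ext_getElem (by simp) fun t h _ => ?_
    simp [hU, f, Nat.mod_eq_of_lt (show t < u.length by simpa using h)]
  have s8 : ∀ k, seg U 0 (u.length * k) = (List.replicate k u).flatten := by
    intro k
    induction k with
    | zero => rfl
    | succ k ih =>
      rw [Nat.mul_succ, add_comm, seg_add, s7, (ZMod.natCast_eq_zero_iff _ _).2 s4, add_zero, ih]
      rfl
  have s9 : 2 * m ≤ u.length * k := by
    rw [mul_comm]; exact Nat.mul_le_mul (Nat.le_of_dvd hp s4) hk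
  refine ⟨m, this, U, u.length * k, fun j => ?_, fun i j e => ?_, s9, s4.mul_right _, s8 k⟩
  · have := j.val_lt
    rw [← s8, show u.length * k = j.val + ((u.length * k - j.val - 2) + 1 + 1) by omega, seg_add,
      zero_add, ZMod.natCast_zmod_val, seg, seg] at hw
    exact ne_bar_iff.2 (List.isChain_cons_cons.1 (List.IsChain.right_of_append hw)).1
  · refine ZMod.val_injective _ (s5 i.val_lt j.val_lt (funext fun t => ?_))
    simp only [s1, ← hU, Nat.cast_add, ZMod.natCast_zmod_val, add_comm (t : ZMod m), e]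

theorem search_computable2 {β : Type} [DecidableEq β] [Primcodable β] {X : List (List β)}
    {R : List (List β × List β)} {f : ℕ → ℕ} (hf : Primrec f) :
    ComputablePred fun z : List β => [] ∈ (grow X R)^[f z.length] [z] := by
  have h1 : Primrec fun z : List β => (grow X R)^[f z.length] [z] :=
    Primrec.nat_iterate (hf.comp Primrec.list_length)
      (Primrec.list_cons.comp Primrec.id (Primrec.const [])) (grow_prim.comp Primrec.snd).to₂
  have h2 : PrimrecPred fun a : List β => a = [] := Primrec.eq.comp Primrec.id (Primrec.const [])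
  exact (h2.exists_mem_list.comp h1).computablePred.of_eq fun z => by simp

theorem decide_PM2 [Fintype α] [DecidableEq α] [Primcodable α] [NeZero m] {K : Type}
    [LinearOrder K] {κ eh : ZMod m → K} (h : Stk U κ eh) {D : ℕ} (hD : 2 * m ≤ D) (hmD : m ∣ D)
    {G : Type} [Group G] {φ : FreeGroup α →* G}
    (hφ : ∀ g, φ g = 1 ↔ g ∈ Subgroup.normalClosure {mk (seg U 0 D)}) :
    ComputablePred fun z : List (α × Bool) => φ (mk z) ∈ PM φ U := by
  obtain ⟨X, hX⟩ : ∃ X : List (List (α × Bool)), ∀ x, x ∈ X ↔
      x.length ≤ 2 * m ∧ (φ (mk x))⁻¹ ∈ PM φ U := by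
    have : {x : List (α × Bool) | x.length ≤ 2 * m ∧ (φ (mk x))⁻¹ ∈ PM φ U}.Finite :=
      (List.finite_length_le (α × Bool) (2 * m)).subset fun x hx => hx.1
    exact ⟨this.toFinset.toList, fun x => by simp⟩
  obtain ⟨R, hR⟩ : ∃ R : List (List (α × Bool) × List (α × Bool)), ∀ r, r ∈ R ↔
      r.1.length ≤ D ∧ r.2.length ≤ D ∧ φ (mk r.2) = φ (mk r.1) := by
    have : {r : List (α × Bool) × List (α × Bool) |
        r.1.length ≤ D ∧ r.2.length ≤ D ∧ φ (mk r.2) = φ (mk r.1)}.Finite :=
      ((List.finite_length_le (α × Bool) D).prod (List.finite_length_le (α × Bool) D)).subset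
        fun x hx => ⟨hx.1, hx.2.1⟩
    exact ⟨this.toFinset.toList, fun x => by simp⟩
  obtain ⟨f, f1, f2⟩ : ∃ f : ℕ → ℕ, Primrec f ∧ ∀ n, f n =
      (Fintype.card (α × Bool) + 1) ^ (n + D * n + D) * m + n + 1 :=
    ⟨_, Primrec.succ.comp (Primrec.nat_add.comp (Primrec.nat_mul.comp
      ((Primrec₂.unpaired'.1 Nat.Primrec.pow).comp (Primrec.const _) (Primrec.nat_add.comp
        (Primrec.nat_add.comp Primrec.id (Primrec.nat_mul.comp (Primrec.const D) Primrec.id))
        (Primrec.const D))) (Primrec.const m)) Primrec.id), fun n => rfl⟩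
  refine (search_computable2 (X := X) (R := R) (f := fun n => (2 * m + 1) * f n + n)
    (Primrec.nat_add.comp (Primrec.nat_mul.comp (Primrec.const _) f1) Primrec.id)).of_eq
    fun z => ⟨fun h => ?_, fun hz => ?_⟩
  · have : ∀ N y, y ∈ (grow X R)^[N] [z] → φ (mk y) ∈ PM φ U → φ (mk z) ∈ PM φ U := by
      intro N
      induction N with
      | zero => intro y hy; rw [List.mem_singleton.1 hy]; exact id
      | succ N ih =>
        intro y hy h
        rw [Function.iterate_succ_apply', grow] at hy
        rcases List.mem_append.1 hy with hy | hy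
        · exact ih y hy h
        obtain ⟨y', g1, g2⟩ := List.mem_flatMap.1 hy
        refine ih y' g1 ?_
        rcases of_mem_nxt g2 with ⟨x, hx, rfl⟩ | rfl | ⟨r, hr, l₁, l₂, rfl, rfl⟩
        · simpa [ev_append] using mul_mem ((hX x).1 hx).2 h
        · exact h
        · rwa [ev_append, ev_append, ← ((hR r).1 hr).2.2, ← ev_append, ← ev_append]
    exact this _ _ h (by rw [ev_nil]; exact one_mem _)
  · have c1 : ∀ L : List (List (α × Bool)), (∀ x ∈ L, x.length ≤ 2 * m ∧ φ (mk x) ∈ PM φ U) →
        L.flatten.length ≤ 2 * m * L.length ∧ ∀ N y, y ∈ (grow X R)^[N] [z] →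
          invRev L.flatten ++ y ∈ (grow X R)^[N + L.length] [z] := by
      intro L
      induction L with
      | nil => exact fun _ => ⟨by simp, fun N y hy => by simpa using hy⟩
      | cons x L ih =>
        intro hL
        obtain ⟨g1, g2⟩ := ih fun x hx => hL x (List.mem_cons_of_mem _ hx)
        obtain ⟨g3, g4⟩ := hL x List.mem_cons_self
        refine ⟨by rw [List.flatten_cons, List.length_append, List.length_cons, Nat.mul_succ]; omega,
          fun N y hy => ?_⟩
        rw [List.flatten_cons, invRev_append, List.append_assoc, List.length_cons,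
          show N + (L.length + 1) = N + 1 + L.length by omega]
        exact g2 _ _ (grow_step hy (mem_nxt_left ((hX _).2
          ⟨by simpa using g3, by rwa [ev_invRev, inv_inv]⟩) _))
    have c2 : ∀ k N y, y.length ≤ k → φ (mk y) = 1 → y ∈ (grow X R)^[N] [z] →
        [] ∈ (grow X R)^[N + k] [z] := by
      intro k
      induction k with
      | zero => intro N y g1 _ g2; rwa [List.length_eq_zero_iff.1 (Nat.le_zero.1 g1)] at g2
      | succ k ih =>
        intro N y g1 g2 g3
        by_cases hy : y = []
        · exact grow_mono (hy ▸ g3) (by omega)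
        obtain ⟨l₁, s, s', l₂, rfl, e1, e2, e3, -⟩ := dehn_step h hD hmD hφ hy g2
        rw [show N + (k + 1) = N + 1 + k by omega]
        refine ih _ (l₁ ++ s' ++ l₂) (by simp at g1 ⊢; omega) ?_
          (grow_step g3 (mem_nxt_right ((hR _).2 ⟨e2, e1.le.trans e2, e3⟩) _ _))
        rwa [ev_append, ev_append, e3, ← ev_append, ← ev_append]
    obtain ⟨L, g1, g2, g3⟩ := chain2 h hD hmD hφ z hz
    obtain ⟨g4, g5⟩ := c1 L g2
    refine grow_mono (c2 _ _ _ le_rfl (by rw [ev_append, ev_invRev, g3, inv_mul_cancel])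
      (g5 0 z (by simp))) ?_
    rw [← f2] at g1
    have := Nat.mul_le_mul_left (2 * m) g1
    rw [List.length_append, invRev_length, Nat.add_mul]
    omega

end Pool.Agent.MP_e50591_al.H22
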