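import Pool.Agent.MP_e50591_al.H22.Path

/-!
An order on circles with top edges and bottom edges: there is no loop that leaves a circle
downwards on both sides of a bottom edge.
-/

namespace Pool.Agent.MP_e50591_al.H22

open Finsupp Submodule FreeGroup Pool.Agent.MP_e50591_al.H50
open scoped Classical

variable {α : Type} {V : Type} [MulAction (FreeGroup α) V] {m : ℕ} {U : ZMod m → α × Bool}
  {S : Finset (V × ZMod m)} {D : ℕ} {EP : Finset (V × α)}
  {P Q : V × ZMod m → V × ZMod m → Prop} {top bot : ZMod m}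

/-- The strict lexicographic order. -/
def Lt {X : Type} (P Q : X → X → Prop) (a b : X) : Prop := P a b ∧ (P b a → Q a b ∧ ¬ Q b a)

/-- The weak order in which ties are broken only in the class of `c`. -/
def Lc {X : Type} (P Q : X → X → Prop) (c a b : X) : Prop := P a b ∧ (P c a → Q a b)

/-- Two preorders on the circles with top edges and bottom edges. -/
structure Ord (U : ZMod m → α × Bool) (D : ℕ) (P Q : V × ZMod m → V × ZMod m → Prop)
    (top bot : ZMod m) : Prop where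
  pt : ∀ a b c, P a b → P b c → P a c
  qt : ∀ a b c, Q a b → Q b c → Q a c
  pn : ∀ a, P a (nx U a) ∧ P (nx U a) a
  qn : ∀ a, Q a (nx U a) ∧ Q (nx U a) a
  top : ∀ t s, t.2 = top → ed U s = ed U t → s = t ∨ Lt P Q s t
  bot : ∀ b s, b.2 = bot → ed U s = ed U b → ¬ Lt P Q s b
  emb : ∀ (s : V × ZMod m) t, 0 < t → t < D → ed U ((nx U)^[t] s) ≠ ed U s

/-- Equivalent strands. -/
def Eqv {X : Type} (P Q : X → X → Prop) (a b : X) : Prop := P a b ∧ P b a ∧ Q a b ∧ Q b a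

lemma Eqv.symm {X : Type} {P Q : X → X → Prop} {a b : X} (h : Eqv P Q a b) : Eqv P Q b a :=
  ⟨h.2.1, h.1, h.2.2.2, h.2.2.1⟩

namespace Ord

variable (h : Ord U D P Q top bot)
include h

lemma pr (a : V × ZMod m) : P a a := h.pt _ _ _ (h.pn a).1 (h.pn a).2

lemma qr (a : V × ZMod m) : Q a a := h.qt _ _ _ (h.qn a).1 (h.qn a).2

lemma et {a b c : V × ZMod m} (h1 : Eqv P Q a b) (h2 : Eqv P Q b c) : Eqv P Q a c :=
  ⟨h.pt _ _ _ h1.1 h2.1, h.pt _ _ _ h2.2.1 h1.2.1, h.qt _ _ _ h1.2.2.1 h2.2.2.1,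
    h.qt _ _ _ h2.2.2.2 h1.2.2.2⟩

lemma it (a : V × ZMod m) (i : ℕ) : Eqv P Q a ((nx U)^[i] a) := by
  induction i with
  | zero => exact ⟨h.pr a, h.pr a, h.qr a, h.qr a⟩
  | succ i ih =>
    rw [Function.iterate_succ_apply']
    exact h.et ih ⟨(h.pn _).1, (h.pn _).2, (h.qn _).1, (h.qn _).2⟩

lemma lt_trans {a b c : V × ZMod m} (h1 : Lt P Q a b) (h2 : Lt P Q b c) : Lt P Q a c :=
  ⟨h.pt _ _ _ h1.1 h2.1, fun g =>
    ⟨h.qt _ _ _ (h1.2 (h.pt _ _ _ h2.1 g)).1 (h2.2 (h.pt _ _ _ g h1.1)).1, fun g' =>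
      (h1.2 (h.pt _ _ _ h2.1 g)).2 (h.qt _ _ _ (h2.2 (h.pt _ _ _ g h1.1)).1 g')⟩⟩

lemma lt_right {a b c : V × ZMod m} (h1 : Lt P Q a b) (h2 : Eqv P Q b c) : Lt P Q a c :=
  ⟨h.pt _ _ _ h1.1 h2.1, fun g => ⟨h.qt _ _ _ (h1.2 (h.pt _ _ _ h2.1 g)).1 h2.2.2.1, fun g' =>
    (h1.2 (h.pt _ _ _ h2.1 g)).2 (h.qt _ _ _ h2.2.2.1 g')⟩⟩

lemma lt_left {a b c : V × ZMod m} (h1 : Lt P Q a b) (h2 : Eqv P Q a c) : Lt P Q c b :=
  ⟨h.pt _ _ _ h2.2.1 h1.1, fun g => ⟨h.qt _ _ _ h2.2.2.2 (h1.2 (h.pt _ _ _ g h2.2.1)).1, fun g' =>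
    (h1.2 (h.pt _ _ _ g h2.2.1)).2 (h.qt _ _ _ g' h2.2.2.2)⟩⟩

omit h in
lemma lt_not {a b : V × ZMod m} (h1 : Lt P Q a b) (h2 : Eqv P Q a b) : False :=
  (h1.2 h2.2.1).2 h2.2.2.2

lemma lc_trans (c a b e : V × ZMod m) (h1 : Lc P Q c a b) (h2 : Lc P Q c b e) : Lc P Q c a e :=
  ⟨h.pt _ _ _ h1.1 h2.1, fun g => h.qt _ _ _ (h1.2 g) (h2.2 (h.pt _ _ _ g h1.1))⟩

lemma lc_base {c c' a b : V × ZMod m} (h1 : Lc P Q c a b) (h2 : P c c') : Lc P Q c' a b :=
  ⟨h1.1, fun g => h1.2 (h.pt _ _ _ h2 g)⟩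

lemma emb' (s : V × ZMod m) {i j : ℕ} (h1 : i < j) (h2 : j < i + D) :
    ed U ((nx U)^[j] s) ≠ ed U ((nx U)^[i] s) := by
  obtain ⟨k, rfl⟩ := Nat.exists_eq_add_of_le' h1.le
  rw [Function.iterate_add_apply]
  exact h.emb _ k (by omega) (by omega)

lemma exists_min {T : Finset (V × ZMod m)} (hT : T.Nonempty) :
    ∃ t ∈ T, ∀ s ∈ T, ¬ Lt P Q s t := by
  induction T using Finset.induction_on with
  | empty => simp at hT
  | insert a T _ ih =>
    have irr : ∀ a, ¬ Lt P Q a a := fun a g => lt_not g (h.it a 0)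
    rcases T.eq_empty_or_nonempty with rfl | g
    · exact ⟨a, by simp, by simpa using irr a⟩
    obtain ⟨t, g1, g2⟩ := ih g
    by_cases e : Lt P Q a t
    · refine ⟨a, by simp, fun s hs => ?_⟩
      rcases Finset.mem_insert.1 hs with rfl | hs
      · exact irr _
      · exact fun g => g2 s hs (h.lt_trans g e)
    · exact ⟨t, by simp [g1], fun s hs => (Finset.mem_insert.1 hs).elim (fun g => g ▸ e) (g2 s)⟩

end Ord

lemma iter_snd (s : V × ZMod m) (i : ℕ) : ((nx U)^[i] s).2 = s.2 + i := by rw [iter_nx]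

/-- A loop made of an arc of the circle through `c` and of a valley below this circle. -/
structure Loop (U : ZMod m → α × Bool) (D : ℕ) (P Q : V × ZMod m → V × ZMod m → Prop)
    (bot : ZMod m) (c : V × ZMod m) (L : ℕ) (d u : List (V × ZMod m)) : Prop where
  b1 : ∃ i < L, c.2 + i = bot
  b2 : ∃ i, L ≤ i ∧ i < D ∧ c.2 + i = bot
  pth : Pth U ((nx U)^[L] c).1 (d ++ u) c.1
  lt : ∀ x ∈ d ++ u, Lt P Q x c
  dn : d.Pairwise fun a b => Lc P Q c b a
  up : u.Pairwise (Lc P Q c)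

/-- No loop lies in the given edges. -/
def NoLoop (U : ZMod m → α × Bool) (D : ℕ) (P Q : V × ZMod m → V × ZMod m → Prop)
    (bot : ZMod m) (E : V × α → Prop) : Prop :=
  ∀ c L d u, Loop U D P Q bot c L d u → ¬ ∀ x ∈ arc U c L ++ (d ++ u), E (ed U x)

section Step

variable {c t : V × ZMod m} {L : ℕ} {d u : List (V × ZMod m)} {E : V × α → Prop}

lemma stepA (h : Ord U D P Q top bot) (hD : 0 < D) (ht : t.2 = top) (hp : (nx U)^[D] t = t)
    (hE : ∀ i, E (ed U ((nx U)^[i] t))) (ih : NoLoop U D P Q bot fun e => E e ∧ e ≠ ed U t)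
    (hl : Loop U D P Q bot c L d u) (he : ∀ x ∈ arc U c L ++ (d ++ u), E (ed U x)) :
    ∃ x ∈ arc U c L ++ (d ++ u), ed U x = ed U t ∧ Lt P Q x t ∧ (P t x → P c x) := by
  by_contra hn
  push Not at hn
  obtain ⟨i₂, l1, l2, l3⟩ := hl.b2
  by_cases e : ∃ i < L, ed U ((nx U)^[i] c) = ed U t
  · obtain ⟨i, hi, e⟩ := e
    obtain rfl : (nx U)^[i] c = t := (h.top _ _ ht e).resolve_right fun g =>
      (hn _ (List.mem_append_left _ (mem_arc.2 ⟨i, hi, rfl⟩)) e g).2 (h.it c i).1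
    have hc : (nx U)^[D] c = c := nx_injective.iterate i (by
      rwa [← Function.iterate_add_apply, add_comm, Function.iterate_add_apply])
    obtain ⟨i₁, k1, k2⟩ := hl.b1
    have e1 := h.it c L
    refine ih ((nx U)^[L] c) (D - L) u.reverse d.reverse ⟨⟨i₂ - L, by omega, ?_⟩,
      ⟨D - L + i₁, by omega, by omega, ?_⟩, ?_, fun x hx => h.lt_right (hl.lt x (by
        simpa [or_comm] using hx)) e1, List.pairwise_reverse.2 (hl.up.imp fun g =>
        h.lc_base g e1.1), List.pairwise_reverse.2 (hl.dn.imp fun g => h.lc_base g e1.1)⟩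
      fun x hx => ?_
    · rw [iter_snd, add_assoc, ← Nat.cast_add, Nat.add_sub_cancel' l1, l3]
    · have := congrArg Prod.snd hc
      rw [iter_snd] at this
      rw [iter_snd, add_assoc, ← Nat.cast_add, show L + (D - L + i₁) = D + i₁ by omega,
        Nat.cast_add, ← add_assoc, this, k2]
    · rw [← Function.iterate_add_apply, Nat.sub_add_cancel (by omega), hc, ← List.reverse_append]
      exact hl.pth.reverse
    · rcases List.mem_append.1 hx with hx | hx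
      · obtain ⟨k, hk, rfl⟩ := mem_arc.1 hx
        rw [← Function.iterate_add_apply]
        refine ⟨?_, h.emb' c (by omega) (by omega)⟩
        have := hE (k + L - i)
        rwa [← Function.iterate_add_apply, Nat.sub_add_cancel (by omega)] at this
      · have hx' : x ∈ d ++ u := by simpa [or_comm] using hx
        have g := h.lt_right (hl.lt x hx') (h.it c i)
        exact ⟨he x (List.mem_append_right _ hx'), fun e =>
          (hn x (List.mem_append_right _ hx') e g).elim fun g1 g2 =>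
            g2 (h.pt _ _ _ (h.it c i).1 g1)⟩
  · have pu : ∀ x ∈ d ++ u, ed U x = ed U t → ∀ i, Lc P Q c x ((nx U)^[i] t) ∧
        Lc P Q c ((nx U)^[i] t) x ∧ Lt P Q ((nx U)^[i] t) c := fun x hx e i => by
      have g := h.it t i
      rcases h.top _ _ ht e with rfl | g1
      · exact ⟨⟨g.1, fun _ => g.2.2.1⟩, ⟨g.2.1, fun _ => g.2.2.2⟩, h.lt_left (hl.lt x hx) g⟩
      · obtain ⟨g2, g3⟩ := hn x (List.mem_append_right _ hx) e g1
        have g4 := h.pt _ _ _ g.2.1 g2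
        exact ⟨⟨h.pt _ _ _ g1.1 g.1, fun k => absurd k g3⟩,
          ⟨g4, fun k => absurd (h.pt _ _ _ k g4) g3⟩,
          h.pt _ _ _ g4 (hl.lt x hx).1, fun k => absurd (h.pt _ _ _ k g4) g3⟩
    obtain ⟨y, p1, p2⟩ := hl.pth.split
    obtain ⟨d', d1, d2, d3⟩ := push (R := fun a b => Lc P Q c b a)
      (fun a b e g g' => h.lc_trans _ _ _ _ g' g) hD hp p1 hl.dn fun x hx e i =>
        ⟨(pu x (List.mem_append_left _ hx) e i).2.1, (pu x (List.mem_append_left _ hx) e i).1⟩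
    obtain ⟨u', u1, u2, u3⟩ := push (h.lc_trans c) hD hp p2 hl.up fun x hx e i =>
      ⟨(pu x (List.mem_append_right _ hx) e i).1, (pu x (List.mem_append_right _ hx) e i).2.1⟩
    have key : ∀ s ∈ d' ++ u', Lt P Q s c ∧ E (ed U s) ∧ ed U s ≠ ed U t := fun s hs => by
      have : (s ∈ d ++ u ∧ ed U s ≠ ed U t) ∨
          ((∃ i, 0 < i ∧ i < D ∧ (nx U)^[i] t = s) ∧ ∃ x ∈ d ++ u, ed U x = ed U t) := by
        rcases List.mem_append.1 hs with hs | hs
        · exact (d3 s hs).imp (And.imp_left (List.mem_append_left _))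
            (And.imp_right fun ⟨x, g, e⟩ => ⟨x, List.mem_append_left _ g, e⟩)
        · exact (u3 s hs).imp (And.imp_left (List.mem_append_right _))
            (And.imp_right fun ⟨x, g, e⟩ => ⟨x, List.mem_append_right _ g, e⟩)
      rcases this with ⟨g1, g2⟩ | ⟨⟨i, g1, g2, rfl⟩, x, g3, g4⟩
      · exact ⟨hl.lt s g1, he s (List.mem_append_right _ g1), g2⟩
      · exact ⟨(pu x g3 g4 i).2.2, hE i, h.emb t i g1 g2⟩
    refine ih c L d' u' ⟨hl.b1, hl.b2, d1.append u1, fun x hx => (key x hx).1, d2, u2⟩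
      fun x hx => ?_
    rcases List.mem_append.1 hx with hx | hx
    · refine ⟨he x (List.mem_append_left _ hx), fun g => ?_⟩
      obtain ⟨i, hi, rfl⟩ := mem_arc.1 hx
      exact e ⟨i, hi, g⟩
    · exact (key x hx).2

lemma valley (h : Ord U D P Q top bot) (hl : Loop U D P Q bot c L d u) {q : List (V × ZMod m)}
    (hq : q.Sublist (arc U c L ++ (d ++ u))) : ∃ d' u', q = d' ++ u' ∧
      (d'.Pairwise fun a b => Lc P Q c b a) ∧ u'.Pairwise (Lc P Q c) := by
  rw [← List.append_assoc] at hq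
  obtain ⟨d', u', rfl, g1, g2⟩ := List.sublist_append_iff.1 hq
  refine ⟨d', u', rfl, List.Pairwise.sublist g1 ?_, hl.up.sublist g2⟩
  have e : ∀ a ∈ arc U c L, Eqv P Q c a := fun a ha => by
    obtain ⟨i, -, rfl⟩ := mem_arc.1 ha
    exact h.it c i
  refine List.pairwise_append.2 ⟨List.pairwise_of_forall_mem_list fun a ha b hb => ?_, hl.dn,
    fun a ha b hb => ?_⟩
  · have := h.et (e b hb).symm (e a ha)
    exact ⟨this.1, fun _ => this.2.2.1⟩
  · have := h.lt_right (hl.lt b (List.mem_append_left _ hb)) (e a ha)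
    exact ⟨this.1, fun g => (this.2 (h.pt _ _ _ (e a ha).2.1 g)).1⟩

lemma stepB [NeZero m] (h : Ord U D P Q top bot) (hmD : m ∣ D) (hp : (nx U)^[D] t = t)
    (hE : ∀ i, E (ed U ((nx U)^[i] t))) (ih : NoLoop U D P Q bot fun e => E e ∧ e ≠ ed U t)
    (hl : Loop U D P Q bot c L d u) (he : ∀ x ∈ arc U c L ++ (d ++ u), E (ed U x))
    {n : ℕ} (n1 : m ∣ n) (n2 : 0 < n) (n3 : n < D) {l₁ l l₂ : List (V × ZMod m)}
    {x₁ x₂ : V × ZMod m} (e : arc U c L ++ (d ++ u) = l₁ ++ x₁ :: (l ++ x₂ :: l₂))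
    (e₁ : ed U x₁ = ed U t) (e₂ : ed U x₂ = ed U ((nx U)^[n] t))
    (g₁ : Lt P Q x₁ t ∧ (P t x₁ → P c x₁)) (g₂ : Lt P Q x₂ t ∧ (P t x₂ → P c x₂)) : False := by
  have down : ∀ x y, Lt P Q x t ∧ (P t x → P c x) → Lc P Q c y x →
      Lt P Q y t ∧ (P t y → P c y) := fun x y g k => by
    have k1 : P t y → P c y := fun k1 =>
      h.pt _ _ _ (h.pt _ _ _ (g.2 (h.pt _ _ _ k1 k.1)) g.1.1) k1
    exact ⟨⟨h.pt _ _ _ k.1 g.1.1, fun k2 => ⟨h.qt _ _ _ (k.2 (k1 k2))
      (g.1.2 (h.pt _ _ _ k2 k.1)).1, fun k3 => (g.1.2 (h.pt _ _ _ k2 k.1)).2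
        (h.qt _ _ _ k3 (k.2 (k1 k2)))⟩⟩, k1⟩
  have gd : ∀ y ∈ l, Lt P Q y t ∧ (P t y → P c y) := fun y hy => by
    obtain ⟨d', u', e', k1, k2⟩ := valley h hl (q := [x₁, y, x₂]) (by
      rw [e]
      exact (List.Sublist.cons_cons _ ((List.singleton_sublist.2 hy).append
        (by simp : [x₂].Sublist (x₂ :: l₂)))).trans (List.sublist_append_right _ _))
    rcases d' with _ | ⟨a, _ | ⟨b, d'⟩⟩
    · obtain rfl : _ = u' := e'
      exact down _ _ g₂ (by simp at k2; exact k2.2)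
    · obtain rfl : [y, x₂] = u' := by simpa using (List.cons.inj e').2
      exact down _ _ g₂ (by simpa using k2)
    · obtain ⟨rfl, rfl, -⟩ : x₁ = a ∧ y = b ∧ [x₂] = d' ++ u' := by simpa using e'
      exact down _ _ g₁ (by simp at k1; exact k1.1.1)
  obtain ⟨l', x, q, e3, e4, e5⟩ := exists_last (fun x => ed U x = ed U t) (l := x₁ :: l)
    ⟨x₁, List.mem_cons_self, e₁⟩
  have e6 : arc U c L ++ (d ++ u) = (l₁ ++ l') ++ x :: (q ++ x₂ :: l₂) := by
    rw [e, ← List.cons_append, e3]; simp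
  have e7 : ∀ y ∈ q, y ∈ l := fun y hy => by
    rcases l' with _ | ⟨a, l'⟩
    · exact (List.cons.inj e3).2 ▸ hy
    · rw [(List.cons.inj e3).2]; simp [hy]
  obtain ⟨a₀, a, b, b₀, -, p1, p2, p3, -⟩ := (e6 ▸ (pth_arc c L).append hl.pth).two
  have e8 : q.Sublist (arc U c L ++ (d ++ u)) := by
    rw [e6]
    exact ((List.sublist_append_left _ _).cons _).trans (List.sublist_append_right _ _)
  obtain ⟨d', u', rfl, k1, k2⟩ := valley h hl e8
  have cv : ∀ y ∈ d' ++ u', ∀ z, Lc P Q c y z → Lc P Q t y z := fun y hy z k =>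
    ⟨k.1, fun k' => k.2 ((gd y (e7 y hy)).2 k')⟩
  have k3 : d'.Pairwise fun a b => Lc P Q t b a :=
    k1.imp_of_mem fun _ hb => cv _ (List.mem_append_left _ hb) _
  have k4 : u'.Pairwise (Lc P Q t) := k2.imp_of_mem fun ha _ => cv _ (List.mem_append_right _ ha) _
  obtain ⟨r, -, r2, r3⟩ := exists_pos t.2 bot 0
  have r1 : r ≠ 0 := by
    rintro rfl
    exact h.bot t x₁ (by simpa using r3) e₁ g₁.1
  have n4 : m ≤ n := Nat.le_of_dvd n2 n1
  have n5 : m ≤ D - n := Nat.le_of_dvd (by omega) (Nat.dvd_sub hmD n1)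
  have key : ∀ (i j : ℕ) (d u : List (V × ZMod m)), 1 ≤ i → i ≤ j → j ≤ D →
      (∃ r, i ≤ r ∧ r < j ∧ t.2 + r = bot) → (∃ r, j ≤ r ∧ r < D + i ∧ t.2 + r = bot) →
      Pth U ((nx U)^[j] t).1 (d ++ u) ((nx U)^[i] t).1 → (∀ y ∈ d ++ u, y ∈ d' ++ u') →
      (d.Pairwise fun a b => Lc P Q t b a) → u.Pairwise (Lc P Q t) → False := by
    rintro i j d u i1 i2 i3 ⟨r, s1, s2, s3⟩ ⟨r', s4, s5, s6⟩ p hm k3 k4
    have e1 := h.it t i
    refine ih ((nx U)^[i] t) (j - i) d u ⟨⟨r - i, by omega, ?_⟩, ⟨r' - i, by omega, by omega, ?_⟩,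
      ?_, fun y hy => h.lt_right (gd y (e7 y (hm y hy))).1 e1, k3.imp fun g => h.lc_base g e1.1,
      k4.imp fun g => h.lc_base g e1.1⟩ fun y hy => ?_
    · rw [iter_snd, add_assoc, ← Nat.cast_add, Nat.add_sub_cancel' s1, s3]
    · rw [iter_snd, add_assoc, ← Nat.cast_add, Nat.add_sub_cancel' (by omega), s6]
    · rwa [← Function.iterate_add_apply, Nat.sub_add_cancel i2]
    · rcases List.mem_append.1 hy with hy | hy
      · obtain ⟨k, hk, rfl⟩ := mem_arc.1 hy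
        rw [← Function.iterate_add_apply]
        exact ⟨hE _, h.emb t _ (by omega) (by omega)⟩
      · exact ⟨he y (e8.subset (hm y hy)), e5 y (hm y hy)⟩
  have r4 : t.2 + (r + n : ℕ) = bot := by
    rw [Nat.cast_add, (ZMod.natCast_eq_zero_iff _ _).2 n1, add_zero, r3]
  have r5 : t.2 + (r + D : ℕ) = bot := by
    rw [Nat.cast_add, (ZMod.natCast_eq_zero_iff _ _).2 hmD, add_zero, r3]
  obtain ⟨n', m1, m2, rfl⟩ : ∃ n', n ≤ n' ∧ n' ≤ n + 1 ∧ b = ((nx U)^[n'] t).1 := by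
    rcases p3.of_ed e₂ with ⟨g, -⟩ | ⟨g, -⟩
    · exact ⟨n, le_rfl, by omega, g⟩
    · exact ⟨n + 1, by omega, le_rfl, by rw [Function.iterate_succ_apply']; exact g⟩
  rcases p1.of_ed e4 with ⟨-, rfl⟩ | ⟨-, rfl⟩
  · exact key 1 n' u'.reverse d'.reverse le_rfl (by omega) (by omega)
      ⟨r, by omega, by omega, r3⟩ ⟨r + n, by omega, by omega, r4⟩
      (by rw [← List.reverse_append]; exact p2.reverse) (fun y hy => by simpa [or_comm] using hy)
      (List.pairwise_reverse.2 k4) (List.pairwise_reverse.2 k3)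
  · exact key n' D d' u' (by omega) (by omega) le_rfl ⟨r + n, by omega, by omega, r4⟩
      ⟨r + D, by omega, by omega, r5⟩ (by rwa [hp]) (fun y hy => hy) k3 k4

end Step

theorem noLoop [NeZero m] (h : Ord U D P Q top bot) (hD : 2 * m ≤ D) (hmD : m ∣ D)
    (hg : Good U D EP S) : NoLoop U D P Q bot fun e => e ∈ S.image (ed U) ∪ EP := by
  have hm : 0 < m := Nat.pos_of_neZero m
  have hD0 : 0 < D := by omega
  induction hn : S.card using Nat.strong_induction_on generalizing S EP with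
  | _ n ih =>
  intro c L d u hl he
  rcases S.eq_empty_or_nonempty with rfl | hS
  · obtain ⟨i, hi, e⟩ := hl.b1
    obtain ⟨i₂, l1, l2, -⟩ := hl.b2
    obtain ⟨z, z1, z2, z3⟩ := (pth_arc (U := U) c L).chain
    obtain ⟨z', z4, z5, -⟩ := hl.pth.chain
    have := span_zero hg (hg.sp (z + z') ((mem_supported' _ _).2 fun e k => by_contra fun g => by
      obtain ⟨x, g1, rfl⟩ : ∃ x ∈ arc U c L ++ (d ++ u), ed U x = e := by
        by_cases k : z e = 0
        · obtain ⟨x, g1, g2⟩ := z4 e (by simpa [k] using g)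
          exact ⟨x, List.mem_append_right _ g1, g2⟩
        · obtain ⟨x, g1, g2⟩ := z1 e k
          exact ⟨x, List.mem_append_left _ g1, g2⟩
      exact k (Finset.mem_coe.2 (he x g1))) (by rw [map_add, z2, z5]; simp))
      (e := ed U ((nx U)^[i] c)) (by simp)
    rw [Finsupp.add_apply, show z' _ = 0 from by_contra fun g => by
      obtain ⟨x, g1, g2⟩ := z4 _ g
      exact h.bot _ x (by rw [iter_snd, e]) g2 (h.lt_right (hl.lt x g1) (h.it c i)),
      add_zero] at this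
    refine z3 ?_ _ (mem_arc.2 ⟨i, hi, rfl⟩) this
    rw [arc, List.map_map]
    refine List.Nodup.map_on (fun a ha b hb g => ?_) List.nodup_range
    rw [List.mem_range] at ha hb
    rcases lt_trichotomy a b with k | k | k
    · exact absurd g.symm (h.emb' c k (by omega))
    · exact k
    · exact absurd g (h.emb' c k (by omega))
  obtain ⟨t₀, h₀, hmin⟩ := h.exists_min hS
  obtain ⟨j, -, -, hj⟩ := exists_pos t₀.2 top 0
  have key : ∀ i, NoLoop U D P Q bot fun e => e ∈ S.image (ed U) ∪ EP ∧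
      e ≠ ed U ((nx U)^[i * m + j] t₀) := fun i c L d u hl he => by
    obtain ⟨S', k1, k2⟩ := remove (EP' := ((arc U c L ++ (d ++ u)).map (ed U)).toFinset) hD0 hg
      (hg.iter h₀ (i * m + j)) (fun s hs e => (h.top _ _ (by rw [iter_snd]; simpa using hj)
        e).resolve_right fun g => hmin s hs (h.lt_right g (h.it t₀ _).symm)) (fun e g => by
          obtain ⟨x, g', rfl⟩ := List.mem_map.1 (List.mem_toFinset.1 g)
          exact (he x g').1) (fun g => by
          obtain ⟨x, g, e⟩ := List.mem_map.1 (List.mem_toFinset.1 g)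
          exact (he x g).2 e)
    exact ih _ (hn ▸ k1) k2 rfl c L d u hl fun x hx =>
      Finset.mem_union_right _ (List.mem_toFinset.2 (List.mem_map_of_mem hx))
  have tp : ∀ i, ((nx U)^[i * m + j] t₀).2 = top := fun i => by rw [iter_snd]; simpa using hj
  have pe := fun i => hg.per _ (hg.iter h₀ (i * m + j))
  have hE : ∀ i k, ed U ((nx U)^[k] ((nx U)^[i * m + j] t₀)) ∈ S.image (ed U) ∪ EP := fun i k =>
    Finset.mem_union_left _ (Finset.mem_image_of_mem _ (hg.iter (hg.iter h₀ _) k))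
  obtain ⟨x₁, a1, a2, a3⟩ := stepA h hD0 (tp 0) (pe 0) (hE 0) (key 0) hl he
  obtain ⟨x₂, b1, b2, b3⟩ := stepA h hD0 (tp 1) (pe 1) (hE 1) (key 1) hl he
  have e1 : (nx U)^[m] ((nx U)^[0 * m + j] t₀) = (nx U)^[1 * m + j] t₀ := by
    rw [← Function.iterate_add_apply]; simp
  have e2 : (nx U)^[D - m] ((nx U)^[1 * m + j] t₀) = (nx U)^[0 * m + j] t₀ := by
    rw [← e1, ← Function.iterate_add_apply, Nat.sub_add_cancel (by omega), pe]
  have e3 : Eqv P Q ((nx U)^[0 * m + j] t₀) ((nx U)^[1 * m + j] t₀) := e1 ▸ h.it _ m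
  rcases two_mem a1 b1 (by
    rintro rfl
    exact h.emb _ m hm (by omega) (by rw [e1, ← b2, a2])) with ⟨l₁, l, l₂, e⟩ | ⟨l₁, l, l₂, e⟩
  · exact stepB h hmD (pe 0) (hE 0) (key 0) hl he dvd_rfl hm (by omega) e a2 (e1 ▸ b2) a3
      ⟨h.lt_right b3.1 e3.symm, fun g => b3.2 (h.pt _ _ _ e3.2.1 g)⟩
  · exact stepB h hmD (pe 1) (hE 1) (key 1) hl he (Nat.dvd_sub hmD dvd_rfl) (by omega)
      (by omega) e b2 (e2 ▸ a2) b3 ⟨h.lt_right a3.1 e3, fun g => a3.2 (h.pt _ _ _ e3.1 g)⟩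

end Pool.Agent.MP_e50591_al.H22
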