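import Pool.Agent.MP_e50591_al.H50.Run

/-!
The stacking order has no cycles in the Cayley complex.
-/

namespace Pool.Agent.MP_e50591_al.H22

open FreeGroup Pool.Agent.MP_e50591_al.H50

variable {α : Type} {m : ℕ} {U : ZMod m → α × Bool} {K : Type} [LinearOrder K]
  {κ eh : ZMod m → K} {G : Type} [Group G] {φ : FreeGroup α →* G} {D : ℕ}

/-- One step along the cyclic word. -/
def St (U : ZMod m → α × Bool) (j : ZMod m) (a : α × Bool) (j' : ZMod m) : Prop :=
  (a = U j ∧ j' = j + 1) ∨ (j = j' + 1 ∧ a = bar (U j'))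

lemma St.flip {j j' : ZMod m} {a : α × Bool} (h : St U j a j') : St U j' (bar a) j := by
  rcases h with ⟨rfl, rfl⟩ | ⟨rfl, rfl⟩
  · exact Or.inr ⟨rfl, rfl⟩
  · exact Or.inl ⟨bar_bar _, rfl⟩

lemma St.cmp (h : Stk U κ eh) {i i' j j' : ZMod m} {a : α × Bool} (h1 : St U i a i')
    (h2 : St U j a j') : κ i ≤ κ j ↔ κ i' ≤ κ j' := by
  rcases h1 with ⟨rfl, rfl⟩ | ⟨rfl, rfl⟩ <;> rcases h2 with ⟨e, rfl⟩ | ⟨rfl, e⟩
  · exact (h.a1 _ _ e).1.symm.trans (h.a1 _ _ e).2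
  · exact (h.a2 _ _ e).1.symm.trans (h.a2 _ _ e).2
  · have e' : U i' = bar (U j) := by rw [← e, bar_bar]
    exact (h.a2 _ _ e').2.symm.trans (h.a2 _ _ e').1
  · have e' : U i' = U j' := by rw [← bar_bar (U i'), e, bar_bar]
    exact (h.a1 _ _ e').2.symm.trans (h.a1 _ _ e').1

/-- Paths along the cyclic word. -/
inductive Ex (U : ZMod m → α × Bool) : ZMod m → List (α × Bool) → ZMod m → Prop
  | nil (j : ZMod m) : Ex U j [] j
  | cons {j j₁ j' : ZMod m} {a : α × Bool} {l : List (α × Bool)} :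
      St U j a j₁ → Ex U j₁ l j' → Ex U j (a :: l) j'

/-- Paths along the cyclic word with drops. -/
inductive Pa (U : ZMod m → α × Bool) (κ : ZMod m → K) : ZMod m → List (α × Bool) → ZMod m → Prop
  | nil {j j' : ZMod m} : κ j' ≤ κ j → Pa U κ j [] j'
  | cons {j j₁ j₂ j' : ZMod m} {a : α × Bool} {l : List (α × Bool)} :
      κ j₁ ≤ κ j → St U j₁ a j₂ → Pa U κ j₂ l j' → Pa U κ j (a :: l) j'

section

variable {i i' j j' j₁ : ZMod m} {l l' : List (α × Bool)}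

lemma Ex.append (h : Ex U j l j₁) (h' : Ex U j₁ l' j') : Ex U j (l ++ l') j' := by
  induction h with
  | nil => exact h'
  | cons h1 _ ih => exact cons h1 (ih h')

lemma Ex.rev (h : Ex U j l j') : Ex U j' (invRev l) j := by
  induction h with
  | nil => exact nil _
  | cons h1 _ ih => rw [invRev_cons']; exact ih.append (cons h1.flip (nil _))

lemma ex_seg (j : ZMod m) (L : ℕ) : Ex U j (seg U j L) (j + L) := by
  induction L generalizing j with
  | zero => simpa [seg] using Ex.nil j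
  | succ L ih =>
    rw [Nat.cast_succ, add_comm (L : ZMod m), ← add_assoc]
    exact .cons (Or.inl ⟨rfl, rfl⟩) (ih _)

lemma Pa.left (h : Pa U κ j l j') (h₀ : κ j ≤ κ i) : Pa U κ i l j' := by
  cases h with
  | nil h => exact nil (h.trans h₀)
  | cons h h1 h2 => exact cons (h.trans h₀) h1 h2

lemma Pa.append (h : Pa U κ j l j₁) (h' : Pa U κ j₁ l' j') : Pa U κ j (l ++ l') j' := by
  induction h with
  | nil h => exact h'.left h
  | cons h h1 _ ih => exact cons h h1 (ih h')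

lemma Pa.split (h : Pa U κ j (l ++ l') j') : ∃ j₁, Pa U κ j l j₁ ∧ Pa U κ j₁ l' j' := by
  induction l generalizing j with
  | nil => exact ⟨j, nil le_rfl, h⟩
  | cons a l ih =>
    cases h with
    | cons h h1 h2 =>
      obtain ⟨j₁, h3, h4⟩ := ih h2
      exact ⟨j₁, cons h h1 h3, h4⟩

lemma Ex.pa (h : Ex U j l j') (h' : κ i' ≤ κ j') : Pa U κ j l i' := by
  induction h with
  | nil => exact .nil h'
  | cons h1 _ ih => exact .cons le_rfl h1 (ih h')

lemma Pa.down (h : Stk U κ eh) (h1 : Pa U κ j l j') (h2 : Ex U i l i') (h3 : κ j ≤ κ i) :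
    κ j' ≤ κ i' := by
  induction h1 generalizing i with
  | nil g => cases h2; exact g.trans h3
  | cons g g1 _ ih =>
    cases h2 with
    | cons k1 k2 => exact ih k2 ((St.cmp h g1 k1).1 (g.trans h3))

lemma Pa.up (h : Stk U κ eh) (h1 : Pa U κ j l j') (h2 : Ex U i l i') (h3 : κ i' ≤ κ j') :
    κ i ≤ κ j := by
  induction h1 generalizing i with
  | nil g => cases h2; exact h3.trans g
  | cons g g1 _ ih =>
    cases h2 with
    | cons k1 k2 => exact ((St.cmp h k1 g1).2 (ih k2 h3)).trans g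

end

variable [NeZero m]

lemma pa_swap (h : Stk U κ eh) {i i' : ZMod m} {s s' : List (α × Bool)}
    (hs : ∀ x, ∃ l₁ l₂, s = l₁ ++ l₂ ∧ Ex U i l₁ x ∧ Ex U x l₂ i') (hs' : Ex U i s' i')
    (j j' : ZMod m) (hp : Pa U κ j s j') : Pa U κ j s' j' := by
  obtain ⟨a, -, ha⟩ := (Finset.univ : Finset (ZMod m)).exists_max_image κ Finset.univ_nonempty
  obtain ⟨b, -, hb⟩ := (Finset.univ : Finset (ZMod m)).exists_min_image κ Finset.univ_nonempty
  refine (hs'.pa ?_).left ?_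
  · obtain ⟨l₁, l₂, rfl, -, g⟩ := hs a
    obtain ⟨j₁, -, g1⟩ := hp.split
    exact g1.down h g (ha _ (Finset.mem_univ _))
  · obtain ⟨l₁, l₂, rfl, g, -⟩ := hs b
    obtain ⟨j₁, g1, -⟩ := hp.split
    exact g1.up h g (hb _ (Finset.mem_univ _))

theorem dehn2 (h : Stk U κ eh) (hD : 2 * m ≤ D) (hmD : m ∣ D) (h1 : pr φ U D = 1)
    {l : List (α × Bool)} (hl : ¬ IsReduced l ∨ Arc U (D - m + 1) l) :
    ∃ l₁ s s' l₂, l = l₁ ++ s ++ l₂ ∧ s'.length < s.length ∧ s.length ≤ D ∧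
      φ (mk s') = φ (mk s) ∧ ∀ j j', Pa U κ j s j' → Pa U κ j s' j' := by
  have hm : 0 < m := Nat.pos_of_neZero m
  rcases hl with hl | ⟨j, hl⟩
  · rw [isReduced_iff_not_step, not_forall] at hl
    obtain ⟨l', hl⟩ := hl
    obtain @⟨l₁, l₂, x, b⟩ := not_not.1 hl
    refine ⟨l₁, [(x, b), bar (x, b)], [], l₂, by simp [bar], by simp, by simp; omega, ?_, ?_⟩
    · rw [mk_cons, φ.map_mul, ev_bar, mul_inv_cancel, ev_nil]
    · intro j j' g
      cases g with
      | cons g1 g2 g3 => exact .nil ((g3.down h (.cons g2.flip (.nil _)) le_rfl).trans g1)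
  obtain ⟨t, rfl⟩ := ZMod.natCast_zmod_surjective j
  have e1 := pr_add (φ := φ) (U := U) t (D - m + 1)
  have e2 := pr_add (φ := φ) (U := U) (t + (D - m + 1)) (m - 1)
  rw [show t + (D - m + 1) + (m - 1) = D * 1 + t by omega, pr_D hmD h1] at e2
  have e3 : φ (mk (seg U (t + (D - m + 1) : ℕ) (m - 1))) = (φ (mk (seg U t (D - m + 1))))⁻¹ := by
    rw [e1, mul_assoc, left_eq_mul] at e2
    exact eq_inv_of_mul_eq_one_right e2
  have e4 : ∀ x, ∃ l₁ l₂, seg U t (D - m + 1) = l₁ ++ l₂ ∧ Ex U t l₁ x ∧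
      Ex U x l₂ (t + (D - m + 1) : ℕ) := fun x => by
    obtain ⟨a, -, a2, rfl⟩ := exists_pos (t : ZMod m) x 0
    obtain ⟨b, e⟩ := Nat.exists_eq_add_of_le (show a ≤ D - m + 1 by omega)
    rw [e, ← add_assoc, Nat.cast_add, Nat.cast_add]
    exact ⟨_, _, seg_add _ _ _, ex_seg _ _, ex_seg _ _⟩
  have e5 := ex_seg (U := U) (t + (D - m + 1) : ℕ) (m - 1)
  rw [← Nat.cast_add, show t + (D - m + 1) + (m - 1) = t + D by omega, Nat.cast_add t D,
    (ZMod.natCast_eq_zero_iff _ _).2 hmD, add_zero] at e5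
  rcases hl with ⟨l₁, l₂, rfl⟩ | ⟨l₁, l₂, hl⟩
  · exact ⟨l₁, _, invRev (seg U (t + (D - m + 1) : ℕ) (m - 1)), l₂, rfl, by simp; omega,
      by simp; omega, by rw [ev_invRev, e3, inv_inv], pa_swap h e4 e5.rev⟩
  · refine ⟨invRev l₂, invRev (seg U t (D - m + 1)), seg U (t + (D - m + 1) : ℕ) (m - 1),
      invRev l₁, by rw [← invRev_invRev (L₁ := l), ← hl]; simp [invRev_append], by simp; omega,
      by simp; omega, by rw [ev_invRev, e3], pa_swap h (fun x => ?_) e5⟩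
    obtain ⟨a, b, e, g1, g2⟩ := e4 x
    exact ⟨_, _, by rw [e, invRev_append], g2.rev, g1.rev⟩

theorem dehn_step (h : Stk U κ eh) (hD : 2 * m ≤ D) (hmD : m ∣ D)
    (hφ : ∀ g, φ g = 1 ↔ g ∈ Subgroup.normalClosure {mk (seg U 0 D)}) {l : List (α × Bool)}
    (hl : l ≠ []) (h1 : φ (mk l) = 1) :
    ∃ l₁ s s' l₂, l = l₁ ++ s ++ l₂ ∧ s'.length < s.length ∧ s.length ≤ D ∧
      φ (mk s') = φ (mk s) ∧ ∀ j j', Pa U κ j s j' → Pa U κ j s' j' := by
  have hm : 0 < m := Nat.pos_of_neZero m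
  refine dehn2 h hD hmD ((hφ _).2 (Subgroup.subset_normalClosure rfl)) ?_
  by_cases hr : IsReduced l
  · exact Or.inr (newman h (by omega) hmD hr hl ((hφ _).1 h1))
  · exact Or.inl hr

theorem acyclic (h : Stk U κ eh) (hD : 2 * m ≤ D) (hmD : m ∣ D)
    (hφ : ∀ g, φ g = 1 ↔ g ∈ Subgroup.normalClosure {mk (seg U 0 D)}) {l : List (α × Bool)}
    (h1 : φ (mk l) = 1) {j j' : ZMod m} (hp : Pa U κ j l j') : κ j' ≤ κ j := by
  induction hn : l.length using Nat.strong_induction_on generalizing l with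
  | _ n ih =>
  by_cases hl : l = []
  · subst hl
    cases hp
    assumption
  obtain ⟨l₁, s, s', l₂, rfl, e1, -, e2, e3⟩ := dehn_step h hD hmD hφ hl h1
  obtain ⟨a, g1, g2⟩ := hp.split
  obtain ⟨b, g3, g4⟩ := g1.split
  exact ih _ (by rw [← hn]; simp; omega) (l := l₁ ++ s' ++ l₂)
    (by rwa [ev_append, ev_append, e2, ← ev_append, ← ev_append])
    ((g3.append (e3 _ _ g4)).append g2) rfl

end Pool.Agent.MP_e50591_al.H22
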