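import Pool.Agent.MP_e50591_al.H22.Depth
import Pool.Agent.MP_e50591_al.H22.Stack

/-!
The order on circles given by the prefix monoid and the stacking, and the distortion bound.
-/

namespace Pool.Agent.MP_e50591_al.H22

open FreeGroup Pool.Agent.MP_e50591_al.H50

variable {α : Type} {m : ℕ} {U : ZMod m → α × Bool} {K : Type} [LinearOrder K]
  {κ eh : ZMod m → K} {G : Type} [Group G] {φ : FreeGroup α →* G} {D : ℕ}
  {V : Type} [MulAction (FreeGroup α) V] {p : V → G}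

/-- The base point of the circle through a strand. -/
def be (φ : FreeGroup α →* G) (U : ZMod m → α × Bool) (p : V → G) (s : V × ZMod m) : G :=
  p s.1 * (pr φ U s.2.val)⁻¹

/-- The order given by the prefix monoid. -/
def PP (φ : FreeGroup α →* G) (U : ZMod m → α × Bool) (p : V → G) (a b : V × ZMod m) : Prop :=
  (be φ U p a)⁻¹ * be φ U p b ∈ PM φ U

/-- The order given by the stacking. -/
def QQ (U : ZMod m → α × Bool) (κ : ZMod m → K) (a b : V × ZMod m) : Prop :=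
  ∃ l, walk b.1 l = a.1 ∧ Pa U κ b.2 l a.2

lemma pr_unit (hD : 0 < D) (hmD : m ∣ D) (h1 : pr φ U D = 1) {t t' : ℕ}
    (e : (t : ZMod m) = t') : pr φ U t * (pr φ U t')⁻¹ ∈ PM φ U := by
  have e : t % m = t' % m := (ZMod.natCast_eq_natCast_iff' _ _ _).1 e
  have e1 := pr_mul_add (φ := φ) (U := U) (Nat.dvd_mul_right m (t / m)) (t % m)
  have e2 := pr_mul_add (φ := φ) (U := U) (Nat.dvd_mul_right m (t' / m)) (t' % m)
  rw [Nat.div_add_mod] at e1 e2
  rw [e1, e2, e, mul_inv_rev, mul_assoc, mul_inv_cancel_left]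
  exact mul_mem (pr_mem _) (pr_inv hD hmD h1 (Nat.dvd_mul_right m (t' / m)))

omit [MulAction (FreeGroup α) V] in
lemma pp_vertex {a b : V × ZMod m} (e : a.1 = b.1) :
    PP φ U p a b ↔ pr φ U a.2.val * (pr φ U b.2.val)⁻¹ ∈ PM φ U := by
  rw [PP, be, be, e, mul_inv_rev, inv_inv, mul_assoc, inv_mul_cancel_left]

variable [NeZero m]

lemma seg_ne_one (h : Stk U κ eh) (hD : 2 * m ≤ D) (hmD : m ∣ D)
    (hφ : ∀ g, φ g = 1 ↔ g ∈ Subgroup.normalClosure {mk (seg U 0 D)}) (j : ZMod m) {t : ℕ}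
    (t1 : 0 < t) (t2 : t < D) : φ (mk (seg U j t)) ≠ 1 := by
  have hm : 0 < m := Nat.pos_of_neZero m
  have h1 : pr φ U D = 1 := (hφ _).2 (Subgroup.subset_normalClosure rfl)
  have k : ∀ (j : ZMod m) t, 0 < t → φ (mk (seg U j t)) = 1 → D - m + 1 ≤ t := fun j t g e => by
    simpa using (newman h (by omega) hmD (seg_reduced h.red j t) (by
      intro e; have := seg_length (U := U) j t; rw [e] at this; simp at this; omega)
      ((hφ _).1 e)).le
  intro e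
  obtain ⟨n, rfl⟩ := ZMod.natCast_zmod_surjective j
  have e1 := pr_add (φ := φ) (U := U) n D
  rw [show n + D = D * 1 + n by omega, pr_D hmD h1, left_eq_mul,
    show D = t + (D - t) by omega, seg_add, ev_append, e, one_mul] at e1
  have := k _ _ t1 e
  have := k _ _ (by omega) e1
  omega

theorem exists_ord (h : Stk U κ eh) (hD : 2 * m ≤ D) (hmD : m ∣ D)
    (hφ : ∀ g, φ g = 1 ↔ g ∈ Subgroup.normalClosure {mk (seg U 0 D)})
    (hp : ∀ y l, p (walk y l) = p y * φ (mk l)) :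
    ∃ top bot, Ord U D (PP φ U p) (QQ U κ) top bot := by
  classical
  have hm : 0 < m := Nat.pos_of_neZero m
  have hD0 : 0 < D := by omega
  have h1 : pr φ U D = 1 := (hφ _).2 (Subgroup.subset_normalClosure rfl)
  have cl : ∀ (y : V) l, walk y l = y → φ (mk l) = 1 := fun y l e => by
    have := hp y l
    rwa [e, left_eq_mul] at this
  have qv : ∀ a b : V × ZMod m, a.1 = b.1 → (QQ U κ a b ↔ κ a.2 ≤ κ b.2) := fun a b e =>
    ⟨fun ⟨l, g1, g2⟩ => acyclic h hD hmD hφ (cl _ _ (g1.trans e)) g2,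
      fun g => ⟨[], by simp [e], .nil g⟩⟩
  have pt : ∀ a b c, PP φ U p a b → PP φ U p b c → PP φ U p a c := fun a b c => le_trans'
  have qt : ∀ a b c : V × ZMod m, QQ U κ a b → QQ U κ b c → QQ U κ a c :=
    fun a b c ⟨l, g1, g2⟩ ⟨l', g3, g4⟩ => ⟨l' ++ l, by rw [walk_append, g3, g1], g4.append g2⟩
  have pn : ∀ a, PP φ U p a (nx U a) ∧ PP φ U p (nx U a) a := fun a => by
    have e : be φ U p (nx U a) =
        be φ U p a * (pr φ U (a.2.val + 1) * (pr φ U (a.2 + 1).val)⁻¹) := by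
      rw [be, be, pr_succ, ZMod.natCast_zmod_val, nx, step, hp]
      group
    refine ⟨?_, ?_⟩
    · rw [PP, e, inv_mul_cancel_left]
      exact pr_unit hD0 hmD h1 (by simp)
    · rw [PP, e, mul_inv_rev, inv_mul_cancel_right, mul_inv_rev, inv_inv]
      exact pr_unit hD0 hmD h1 (by simp)
  have qn : ∀ a : V × ZMod m, QQ U κ a (nx U a) ∧ QQ U κ (nx U a) a := fun a =>
    ⟨⟨[bar (U a.2)], step_bar _ _, .cons le_rfl (Or.inr ⟨rfl, rfl⟩) (.nil le_rfl)⟩,
      ⟨[U a.2], rfl, .cons le_rfl (Or.inl ⟨rfl, rfl⟩) (.nil le_rfl)⟩⟩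
  have ll : ∀ a c b, Lt (PP φ U p) (QQ U κ) a b → Eqv (PP φ U p) (QQ U κ) a c →
      Lt (PP φ U p) (QQ U κ) c b := fun a c b h1 h2 =>
    ⟨pt _ _ _ h2.2.1 h1.1, fun g => ⟨qt _ _ _ h2.2.2.2 (h1.2 (pt _ _ _ g h2.2.1)).1, fun g' =>
      (h1.2 (pt _ _ _ g h2.2.1)).2 (qt _ _ _ g' h2.2.2.2)⟩⟩
  have en : ∀ a, Eqv (PP φ U p) (QQ U κ) a (nx U a) := fun a =>
    ⟨(pn a).1, (pn a).2, (qn a).1, (qn a).2⟩
  obtain ⟨top, t1, t2⟩ := (Finset.univ.filter fun j : ZMod m =>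
    (pr φ U j.val)⁻¹ ∈ PM φ U).exists_max_image κ ⟨0, by
      simp [show pr φ U 0 = 1 from ev_nil]⟩
  simp only [Finset.mem_filter, Finset.mem_univ, true_and] at t1 t2
  let r : ZMod m → ZMod m → Prop := fun i j => pr φ U i.val * (pr φ U j.val)⁻¹ ∈ PM φ U ∧
    (pr φ U j.val * (pr φ U i.val)⁻¹ ∈ PM φ U → κ i < κ j)
  have : IsTrans _ r := ⟨fun a b c g g' => ⟨by simpa [mul_assoc] using mul_mem g.1 g'.1, fun k =>
    (g.2 (by simpa [mul_assoc] using mul_mem g'.1 k)).trans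
      (g'.2 (by simpa [mul_assoc] using mul_mem k g.1))⟩⟩
  have : Std.Irrefl r := ⟨fun a g => lt_irrefl _ (g.2 g.1)⟩
  obtain ⟨bot, -, b1⟩ := (Finite.wellFounded_of_trans_of_irrefl r).has_min Set.univ
    Set.univ_nonempty
  have tv : ∀ t s : V × ZMod m, t.2 = top → s.1 = t.1 → s = t ∨ Lt (PP φ U p) (QQ U κ) s t := by
    intro t s e1 e2
    refine or_iff_not_imp_left.2 fun g => ⟨(pp_vertex e2).2 (mul_mem (pr_mem _) (e1 ▸ t1)),
      fun k => ?_⟩
    have k1 := t2 s.2 (by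
      have := mul_mem t1 (e1 ▸ (pp_vertex e2.symm).1 k)
      rwa [inv_mul_cancel_left] at this)
    rw [qv _ _ e2, qv _ _ e2.symm, e1]
    exact ⟨k1, fun k2 => g (Prod.ext e2 (e1 ▸ h.inj (le_antisymm k1 k2)))⟩
  have bv : ∀ b s : V × ZMod m, b.2 = bot → s.1 = b.1 → ¬ Lt (PP φ U p) (QQ U κ) s b := by
    intro b s e1 e2 g
    refine b1 s.2 trivial ⟨e1 ▸ (pp_vertex e2).1 g.1, fun k => ?_⟩
    have := (g.2 ((pp_vertex e2.symm).2 (e1 ▸ k))).2
    rwa [qv _ _ e2.symm, e1, not_le] at this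
  refine ⟨top, bot, pt, qt, pn, qn, fun t s e1 e2 => ?_, fun b s e1 e2 g => ?_,
    fun s t g1 g2 e => ?_⟩
  · rcases ed_eq e2 with ⟨g, -⟩ | ⟨-, g, g'⟩
    · exact tv t s e1 g
    · rcases tv t _ e1 g with rfl | k
      · exact absurd (by rw [g', bar_bar]; rfl) (h.red s.2)
      · exact Or.inr (ll _ _ _ k (en s).symm)
  · rcases ed_eq e2 with ⟨k, -⟩ | ⟨-, k, -⟩
    · exact bv b s e1 k g
    · exact bv b _ e1 k (ll _ _ _ g (en s))
  · rcases ed_eq e with ⟨k, -⟩ | ⟨k, -, k'⟩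
    · rw [iter_nx] at k
      exact seg_ne_one h hD hmD hφ _ g1 g2 (cl _ _ k)
    · obtain ⟨t, rfl⟩ := Nat.exists_eq_succ_of_ne_zero g1.ne'
      rcases t.eq_zero_or_pos with rfl | g3
      · exact h.red _ k'
      · rw [Function.iterate_succ_apply, iter_nx] at k
        exact seg_ne_one h hD hmD hφ _ g3 (by omega) (cl _ _ k)

omit [NeZero m] in
lemma first_run {P Q : V × ZMod m → V × ZMod m → Prop} {top bot : ZMod m}
    (h : Ord U D P Q top bot) (hP : ∀ y t, P (y, 0) (walk y (seg U 0 t), 0)) (ts : List ℕ) :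
    ∀ y : V, P (y, 0) (walk y (ts.flatMap (seg U 0)), 0) ∧ ∃ R,
      Pth U y R (walk y (ts.flatMap (seg U 0))) ∧ R.Pairwise P ∧
        ∀ x ∈ R, P (y, 0) x ∧ P x (walk y (ts.flatMap (seg U 0)), 0) := by
  induction ts with
  | nil => exact fun y => ⟨by simpa using h.pr _, [], by simpa using .nil y, .nil, by simp⟩
  | cons t ts ih =>
    intro y
    obtain ⟨g1, R, g2, g3, g4⟩ := ih (walk y (seg U 0 t))
    rw [List.flatMap_cons, walk_append]
    have g5 := h.pt _ _ _ (hP y t) g1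
    have e : ∀ a ∈ arc U (y, 0) t, Eqv P Q (y, 0) a := fun a ha => by
      obtain ⟨i, -, rfl⟩ := mem_arc.1 ha
      exact h.it _ i
    have g6 := pth_arc (U := U) (y, 0) t
    rw [iter_nx] at g6
    refine ⟨g5, arc U (y, 0) t ++ R, g6.append g2, List.pairwise_append.2
      ⟨List.pairwise_of_forall_mem_list fun a ha b hb => h.pt _ _ _ (e a ha).2.1 (e b hb).1, g3,
        fun a ha b hb => h.pt _ _ _ (e a ha).2.1 (h.pt _ _ _ (hP y t) (g4 b hb).1)⟩,
      fun x hx => ?_⟩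
    rcases List.mem_append.1 hx with hx | hx
    · exact ⟨(e x hx).1, h.pt _ _ _ (e x hx).2.1 g5⟩
    · exact ⟨h.pt _ _ _ (hP y t) (g4 x hx).1, (g4 x hx).2⟩

lemma factor {Q : V × ZMod m → V × ZMod m → Prop} {top bot : ZMod m}
    (h : Ord U D (PP φ U p) Q top bot) (hp : ∀ y l, p (walk y l) = p y * φ (mk l)) {y y' : V}
    {R : List (V × ZMod m)} (hR : Pth U y R y') (pw : R.Pairwise (PP φ U p)) {e : V × ZMod m}
    (he : e.1 = y') : ∀ c : V × ZMod m, c.1 = y → PP φ U p c e →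
      (∀ x ∈ R, PP φ U p c x ∧ PP φ U p x e) → ∃ L : List (List (α × Bool)),
      L.length ≤ R.length + 1 ∧ (∀ x ∈ L, x.length ≤ 2 * m ∧ φ (mk x) ∈ PM φ U) ∧
        φ (mk L.flatten) = (be φ U p c)⁻¹ * be φ U p e := by
  have k : ∀ (c c' : V × ZMod m) (l : List (α × Bool)), l.length ≤ 1 → walk c.1 l = c'.1 →
      ∃ x : List (α × Bool), x.length ≤ 2 * m ∧ φ (mk x) = (be φ U p c)⁻¹ * be φ U p c' :=
    fun c c' l g e => ⟨seg U 0 c.2.val ++ l ++ invRev (seg U 0 c'.2.val), by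
      have := c.2.val_lt
      have := c'.2.val_lt
      simp
      omega, by
      rw [ev_append, ev_append, ev_invRev, be, be, ← e, hp, pr, pr]
      group⟩
  induction hR with
  | nil y =>
    intro c g1 g2 _
    obtain ⟨x, g3, g4⟩ := k c e [] (by simp) (by simp [g1, he])
    exact ⟨[x], by simp, by simpa using ⟨g3, g4 ▸ g2⟩, by simpa using g4⟩
  | @cons y y₁ y' s l h1 _ ih =>
    intro c g1 _ g3
    rw [List.pairwise_cons] at pw
    obtain ⟨c', a, k1, k2, k3, k4⟩ : ∃ c' : V × ZMod m, ∃ a : α × Bool, c'.1 = y₁ ∧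
        walk y [a] = y₁ ∧ PP φ U p s c' ∧ PP φ U p c' s := by
      rcases h1 with ⟨rfl, rfl⟩ | ⟨rfl, rfl⟩
      · exact ⟨nx U s, U s.2, rfl, rfl, h.pn s⟩
      · exact ⟨s, bar (U s.2), rfl, step_bar _ _, h.pr s, h.pr s⟩
    obtain ⟨L, g4, g5, g6⟩ := ih pw.2 he c' k1 (h.pt _ _ _ k4 (g3 s List.mem_cons_self).2)
      fun x hx => ⟨h.pt _ _ _ k4 (pw.1 x hx), (g3 x (List.mem_cons_of_mem _ hx)).2⟩
    obtain ⟨x, g7, g8⟩ := k c c' [a] (by simp) (by rw [g1, k2, k1])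
    refine ⟨x :: L, by simp; omega, fun x' hx => ?_, ?_⟩
    · rcases List.mem_cons.1 hx with rfl | hx
      · exact ⟨g7, g8 ▸ h.pt _ _ _ (g3 s List.mem_cons_self).1 k3⟩
      · exact g5 x' hx
    · rw [List.flatten_cons, ev_append, g6, g8]
      group

theorem chain2 [Fintype α] (h : Stk U κ eh) (hD : 2 * m ≤ D) (hmD : m ∣ D)
    (hφ : ∀ g, φ g = 1 ↔ g ∈ Subgroup.normalClosure {mk (seg U 0 D)})
    (z : List (α × Bool)) (hz : φ (mk z) ∈ PM φ U) : ∃ L : List (List (α × Bool)),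
      L.length ≤ (Fintype.card (α × Bool) + 1) ^ (z.length + D * z.length + D) * m +
        z.length + 1 ∧
      (∀ x ∈ L, x.length ≤ 2 * m ∧ φ (mk x) ∈ PM φ U) ∧ φ (mk L.flatten) = φ (mk z) := by
  have hm : 0 < m := Nat.pos_of_neZero m
  obtain ⟨ts, hts⟩ : ∃ ts : List ℕ, φ (mk (ts.flatMap (seg U 0))) = φ (mk z) := by
    generalize φ (mk z) = g at hz
    induction hz using Submonoid.closure_induction_left with
    | one => exact ⟨[], ev_nil⟩
    | mul_left g hg _ _ ih =>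
      obtain ⟨t, rfl⟩ := hg
      obtain ⟨ts, rfl⟩ := ih
      exact ⟨t :: ts, ev_append _ _⟩
  obtain ⟨V, _, o, e0, h1, h2, S₀, h3⟩ := setup (U := U) (by omega) hmD
    (v := ts.flatMap (seg U 0)) (z := z) ((hφ _).1 (by
      rw [φ.map_mul, φ.map_inv, hts, mul_inv_cancel]))
  have eqv : ∀ l l', walk o l = walk o l' → φ (mk l) = φ (mk l') := fun l l' e => by
    have := (hφ _).2 (h1 l l' e)
    rwa [φ.map_mul, φ.map_inv, mul_inv_eq_one] at this
  choose τ hτ using h2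
  have hp : ∀ y l, φ (mk (τ (walk y l))) = φ (mk (τ y)) * φ (mk l) := fun y l => by
    rw [← ev_append]
    exact eqv _ _ (by rw [walk_append, hτ, hτ])
  have p0 : φ (mk (τ o)) = 1 := (eqv _ [] (by rw [hτ, walk_nil])).trans ev_nil
  have b0 : ∀ y, be φ U (fun y => φ (mk (τ y))) (y, 0) = φ (mk (τ y)) := fun y => by
    simp [be, show pr φ U 0 = 1 from ev_nil]
  obtain ⟨top, bot, ho⟩ := exists_ord (p := fun y => φ (mk (τ y))) h hD hmD hφ hp
  obtain ⟨g1, R₀, g2⟩ := first_run ho (fun y t => by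
    rw [PP, b0, b0, hp, inv_mul_cancel_left]; exact pr_mem t) ts o
  rw [e0] at g1 g2
  obtain ⟨R, ⟨g3, g4, g5⟩, g6⟩ := bound ho hD hmD h3 g2
  obtain ⟨L, g7, g8, g9⟩ := factor ho hp g3 g4 (e := (walk o z, 0)) rfl (o, 0) rfl g1 g5
  exact ⟨L, by omega, g8, by rw [g9, b0, b0, hp, inv_mul_cancel_left]⟩

end Pool.Agent.MP_e50591_al.H22
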