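import Pool.Agent.MP_e50591_al.H50.Shell

/-!
Paths whose edges are carried by circles.
-/

namespace Pool.Agent.MP_e50591_al.H22

open Finsupp Submodule FreeGroup Pool.Agent.MP_e50591_al.H50
open scoped Classical

variable {α : Type} {V : Type} [MulAction (FreeGroup α) V] {m : ℕ} {U : ZMod m → α × Bool}
  {S : Finset (V × ZMod m)} {D : ℕ} {EP EP' : Finset (V × α)}

lemma good_mono (h : Good U D EP S) (h1 : EP' ⊆ S.image (ed U) ∪ EP) : Good U D EP' S :=
  ⟨h.cl, h.per, fun z hz => h.sp z (supported_mono (Finset.coe_subset.2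
    (Finset.union_subset Finset.subset_union_left h1)) hz)⟩

lemma span_zero (h : Good U D EP S) {z : V × α →₀ ℤ}
    (hz : z ∈ span ℤ ((S.image (cyc U D) : Finset _) : Set (V × α →₀ ℤ))) {e : V × α}
    (he : e ∉ S.image (ed U)) : z e = 0 := by
  refine span_induction (p := fun z' _ => z' e = 0) ?_ rfl
    (fun x y _ _ hx hy => by simp [hx, hy]) (fun c x _ hx => by simp [hx]) hz
  intro c hc
  obtain ⟨s', h4, rfl⟩ := Finset.mem_image.1 (Finset.mem_coe.1 hc)
  by_contra h6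
  obtain ⟨i, -, h7⟩ := ch_seg_ne h6
  exact he (Finset.mem_image.2 ⟨_, h.iter h4 i, h7⟩)

theorem remove (hD : 0 < D) (h₀ : Good U D EP S) {s : V × ZMod m} (hs : s ∈ S)
    (hf : Free U S s) (h₁ : EP' ⊆ S.image (ed U) ∪ EP) (he : ed U s ∉ EP') :
    ∃ S' : Finset (V × ZMod m), S'.card < S.card ∧ Good U D EP' S' := by
  have h := good_mono h₀ h₁
  set S' := S.filter fun s' => orb U D s' ≠ orb U D s with hS'
  have hs' : s ∉ S' := by simp [hS']
  have cl : ∀ s' ∈ S', nx U s' ∈ S' := fun s' h1 => by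
    obtain ⟨h1, h2⟩ := Finset.mem_filter.1 h1
    exact Finset.mem_filter.2 ⟨h.cl _ h1, by rwa [← orb_iter hD (h.per _ h1) 1] at h2⟩
  refine ⟨S', Finset.card_lt_card ⟨Finset.filter_subset _ _, fun e => hs' (e hs)⟩, cl,
    fun s' h1 => h.per _ (Finset.mem_filter.1 h1).1, fun z hz h1 => ?_⟩
  have h2 := h.sp z (supported_mono (Finset.coe_subset.2 (Finset.union_subset_union_left
    (Finset.image_subset_image (Finset.filter_subset _ _)))) hz) h1
  have h3 : ((S.image (cyc U D) : Finset _) : Set (V × α →₀ ℤ)) ⊆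
      insert (cyc U D s) (S'.image (cyc U D) : Finset _) := by
    intro c hc
    obtain ⟨s', h4, rfl⟩ := Finset.mem_image.1 (Finset.mem_coe.1 hc)
    by_cases e : orb U D s' = orb U D s
    · obtain ⟨t, rfl⟩ := of_orb_eq hD (h.per _ hs) (h.per _ h4) e
      exact Or.inl (cyc_iter (h.per _ hs) t)
    · exact Or.inr (Finset.mem_coe.2 (Finset.mem_image_of_mem _ (Finset.mem_filter.2 ⟨h4, e⟩)))
  obtain ⟨k, z', h4, rfl⟩ := mem_span_insert.1 (span_mono h3 h2)
  have h0 : ed U s ∉ S'.image (ed U) := fun g => by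
    obtain ⟨s', h6, h7⟩ := Finset.mem_image.1 g
    exact hs' (hf s' (Finset.mem_filter.1 h6).1 h7 ▸ h6)
  have h5 : z' (ed U s) = 0 := by
    refine span_induction (p := fun z' _ => z' (ed U s) = 0) ?_ rfl
      (fun x y _ _ hx hy => by simp [hx, hy]) (fun c x _ hx => by simp [hx]) h4
    intro c hc
    obtain ⟨s', h4, rfl⟩ := Finset.mem_image.1 (Finset.mem_coe.1 hc)
    obtain ⟨h4, h5⟩ := Finset.mem_filter.1 h4
    by_contra h6
    obtain ⟨i, -, h7⟩ := ch_seg_ne h6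
    exact h5 (by rw [← hf _ (h.iter h4 i) h7, orb_iter hD (h.per _ h4)])
  have h6 := (mem_supported' _ _).1 hz (ed U s) (by
    simp only [Finset.coe_union, Set.mem_union, Finset.mem_coe, he, h0, or_self,
      not_false_eq_true])
  have h7 : cyc U D s (ed U s) ≠ 0 := fun e => by
    have := h.coef hs hf D
    rw [show ch s.1 (seg U s.2 D) = cyc U D s from rfl, e, mul_zero, eq_comm, Nat.cast_eq_zero,
      Finset.card_eq_zero] at this
    have h8 : 0 ∈ (Finset.range D).filter fun i => (nx U)^[i] s = s := by simp [hD]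
    simp [this] at h8
  simp only [Finsupp.add_apply, Finsupp.smul_apply, h5, add_zero, smul_eq_mul, mul_eq_zero, h7,
    or_false] at h6
  simpa [h6] using h4

/-- The strand joins the two vertices. -/
def Lk (U : ZMod m → α × Bool) (s : V × ZMod m) (y y' : V) : Prop :=
  (y = s.1 ∧ y' = (nx U s).1) ∨ (y = (nx U s).1 ∧ y' = s.1)

lemma Lk.symm {s : V × ZMod m} {y y' : V} (h : Lk U s y y') : Lk U s y' y :=
  (Or.symm h).imp And.symm And.symm

lemma Lk.of_ed {s t : V × ZMod m} {y y' : V} (h : Lk U s y y') (e : ed U s = ed U t) :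
    Lk U t y y' := by
  rcases ed_eq e with ⟨h1, h2, -⟩ | ⟨h1, h2, -⟩
  · rwa [Lk, ← h1, ← h2]
  · rw [Lk, ← h1, ← h2]; exact Or.symm h

lemma Lk.ends {s : V × ZMod m} {y y' a a' : V} (h : Lk U s y y') (h' : Lk U s a a') :
    a = y ∨ a = y' := by
  rcases h with ⟨rfl, rfl⟩ | ⟨rfl, rfl⟩ <;> rcases h' with ⟨rfl, -⟩ | ⟨rfl, -⟩ <;> simp

/-- A path given by the strands that carry its edges. -/
inductive Pth (U : ZMod m → α × Bool) : V → List (V × ZMod m) → V → Prop
  | nil (y : V) : Pth U y [] y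
  | cons {y y₁ y' : V} {s : V × ZMod m} {l : List (V × ZMod m)} :
      Lk U s y y₁ → Pth U y₁ l y' → Pth U y (s :: l) y'

namespace Pth

variable {y y₁ y' : V} {l l' : List (V × ZMod m)}

lemma append (h : Pth U y l y₁) (h' : Pth U y₁ l' y') : Pth U y (l ++ l') y' := by
  induction h with
  | nil => exact h'
  | cons h1 _ ih => exact cons h1 (ih h')

lemma split (h : Pth U y (l ++ l') y') : ∃ y₁, Pth U y l y₁ ∧ Pth U y₁ l' y' := by
  induction l generalizing y with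
  | nil => exact ⟨y, nil y, h⟩
  | cons s l ih =>
    cases h with
    | cons h1 h2 =>
      obtain ⟨y₂, h3, h4⟩ := ih h2
      exact ⟨y₂, cons h1 h3, h4⟩

lemma reverse (h : Pth U y l y') : Pth U y' l.reverse y := by
  induction h with
  | nil => exact nil _
  | cons h1 _ ih => rw [List.reverse_cons]; exact ih.append (cons h1.symm (nil _))

lemma two {l₁ l₂ : List (V × ZMod m)} {x x' : V × ZMod m}
    (h : Pth U y (l₁ ++ x :: (l ++ x' :: l₂)) y') : ∃ a a' b b', Pth U y l₁ a ∧ Lk U x a a' ∧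
      Pth U a' l b ∧ Lk U x' b b' ∧ Pth U b' l₂ y' := by
  obtain ⟨a, h1, h2⟩ := h.split
  cases h2 with
  | cons h2 h3 =>
    obtain ⟨b, h3, h4⟩ := h3.split
    cases h4 with
    | cons h4 h5 => exact ⟨_, _, _, _, h1, h2, h3, h4, h5⟩

lemma chain (h : Pth U y l y') : ∃ z : V × α →₀ ℤ, (∀ e, z e ≠ 0 → ∃ x ∈ l, ed U x = e) ∧
    bd z = single y' 1 - single y 1 ∧ ((l.map (ed U)).Nodup → ∀ x ∈ l, z (ed U x) ≠ 0) := by
  induction h with
  | nil => exact ⟨0, by simp, by simp, by simp⟩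
  | @cons y y₁ y' s l h1 _ ih =>
    obtain ⟨z, g1, g2, g3⟩ := ih
    obtain ⟨c, hc, e⟩ : ∃ c : ℤ, c ≠ 0 ∧ bd (single (ed U s) c) = single y₁ 1 - single y 1 := by
      have h0 : sgn (U s.2) ≠ 0 := fun e => by simpa [e] using sgn_mul_self (U s.2)
      have := bd_edge s.1 (U s.2)
      rcases h1 with ⟨rfl, rfl⟩ | ⟨rfl, rfl⟩
      · exact ⟨_, h0, this⟩
      · exact ⟨-sgn (U s.2), neg_ne_zero.2 h0, by rw [single_neg, map_neg, ed, this, neg_sub]; rfl⟩
    refine ⟨single (ed U s) c + z, fun e he => ?_, by rw [map_add, e, g2]; abel, fun hn x hx => ?_⟩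
    · by_cases h : ed U s = e
      · exact ⟨s, List.mem_cons_self, h⟩
      · rw [Finsupp.add_apply, single_eq_of_ne' h, zero_add] at he
        obtain ⟨x, hx, e⟩ := g1 e he
        exact ⟨x, List.mem_cons_of_mem _ hx, e⟩
    · rw [List.map_cons, List.nodup_cons] at hn
      rw [Finsupp.add_apply]
      rcases List.mem_cons.1 hx with rfl | hx
      · rw [single_eq_same, show z (ed U x) = 0 from by_contra fun g =>
          hn.1 (List.mem_map.2 (g1 _ g)), add_zero]
        exact hc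
      · rw [single_eq_of_ne' fun g => hn.1 (List.mem_map.2 ⟨x, hx, g.symm⟩), zero_add]
        exact g3 hn.2 x hx

end Pth

/-- An arc of a circle. -/
def arc (U : ZMod m → α × Bool) (s : V × ZMod m) (L : ℕ) : List (V × ZMod m) :=
  (List.range L).map fun i => (nx U)^[i] s

lemma mem_arc {s x : V × ZMod m} {L : ℕ} : x ∈ arc U s L ↔ ∃ i < L, (nx U)^[i] s = x := by
  simp only [arc, List.mem_map, List.mem_range]

lemma pth_arc (s : V × ZMod m) (L : ℕ) : Pth U s.1 (arc U s L) ((nx U)^[L] s).1 := by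
  induction L with
  | zero => exact .nil _
  | succ L ih =>
    rw [arc, List.range_succ, List.map_append]
    exact ih.append (.cons (Or.inl ⟨rfl, by rw [Function.iterate_succ_apply']⟩) (.nil _))

theorem push {R : V × ZMod m → V × ZMod m → Prop} (tr : ∀ a b c, R a b → R b c → R a c)
    (hD : 0 < D) {t : V × ZMod m} (ht : (nx U)^[D] t = t) {y y' : V} {q : List (V × ZMod m)}
    (h : Pth U y q y') (hq : q.Pairwise R)
    (hx : ∀ x ∈ q, ed U x = ed U t → ∀ i, R x ((nx U)^[i] t) ∧ R ((nx U)^[i] t) x) :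
    ∃ q', Pth U y q' y' ∧ q'.Pairwise R ∧ ∀ s ∈ q', (s ∈ q ∧ ed U s ≠ ed U t) ∨
      ((∃ i, 0 < i ∧ i < D ∧ (nx U)^[i] t = s) ∧ ∃ x ∈ q, ed U x = ed U t) := by
  induction h with
  | nil => exact ⟨[], .nil _, .nil, by simp⟩
  | @cons y y₁ y' s l h1 _ ih =>
    rw [List.pairwise_cons] at hq
    obtain ⟨q', g1, g2, g3⟩ := ih hq.2 fun x h => hx x (List.mem_cons_of_mem _ h)
    have g4 : ∀ z ∈ q', R s z := fun z hz => by
      rcases g3 z hz with ⟨g, -⟩ | ⟨⟨i, -, -, rfl⟩, x, g, e⟩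
      · exact hq.1 z g
      · exact tr _ _ _ (hq.1 x g) (hx x (List.mem_cons_of_mem _ g) e i).1
    have g5 : ∀ z ∈ q', (z ∈ s :: l ∧ ed U z ≠ ed U t) ∨
        ((∃ i, 0 < i ∧ i < D ∧ (nx U)^[i] t = z) ∧ ∃ x ∈ s :: l, ed U x = ed U t) := fun z hz =>
      (g3 z hz).imp (And.imp_left (List.mem_cons_of_mem _))
        (And.imp_right fun ⟨x, g, e⟩ => ⟨x, List.mem_cons_of_mem _ g, e⟩)
    by_cases e : ed U s = ed U t
    · obtain ⟨b, b1, b2⟩ : ∃ b, Pth U y b y₁ ∧ ∀ z ∈ b, z ∈ arc U (nx U t) (D - 1) := by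
        have := pth_arc (U := U) (nx U t) (D - 1)
        rw [← Function.iterate_succ_apply, show (D - 1).succ = D by omega, ht] at this
        rcases h1.of_ed e with ⟨rfl, rfl⟩ | ⟨rfl, rfl⟩
        · exact ⟨_, this.reverse, fun z => List.mem_reverse.1⟩
        · exact ⟨_, this, fun z => id⟩
      have b3 : ∀ z ∈ b, ∃ i, 0 < i ∧ i < D ∧ (nx U)^[i] t = z := fun z hz => by
        obtain ⟨i, hi, rfl⟩ := mem_arc.1 (b2 z hz)
        exact ⟨i + 1, by omega, by omega, rfl⟩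
      have b4 : ∀ z ∈ b, R s z ∧ R z s := fun z hz => by
        obtain ⟨i, -, -, rfl⟩ := b3 z hz
        exact hx s List.mem_cons_self e i
      refine ⟨b ++ q', b1.append g1, List.pairwise_append.2 ⟨List.pairwise_of_forall_mem_list
        fun a ha a' ha' => tr _ _ _ (b4 a ha).2 (b4 a' ha').1, g2,
        fun a ha z hz => tr _ _ _ (b4 a ha).2 (g4 z hz)⟩, fun z hz => ?_⟩
      rcases List.mem_append.1 hz with hz | hz
      · exact Or.inr ⟨b3 z hz, s, List.mem_cons_self, e⟩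
      · exact g5 z hz
    · refine ⟨s :: q', .cons h1 g1, List.pairwise_cons.2 ⟨g4, g2⟩, fun z hz => ?_⟩
      rcases List.mem_cons.1 hz with rfl | hz
      · exact Or.inl ⟨List.mem_cons_self, e⟩
      · exact g5 z hz

lemma two_mem {β : Type} {p : List β} {x x' : β} (h : x ∈ p) (h' : x' ∈ p) (hne : x ≠ x') :
    (∃ l₁ l l₂, p = l₁ ++ x :: (l ++ x' :: l₂)) ∨ ∃ l₁ l l₂, p = l₁ ++ x' :: (l ++ x :: l₂) := by
  obtain ⟨l₁, l₂, rfl⟩ := List.append_of_mem h
  rcases List.mem_append.1 h' with h' | h'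
  · obtain ⟨a, b, rfl⟩ := List.append_of_mem h'
    exact Or.inr ⟨a, b, l₂, by simp⟩
  · obtain ⟨a, b, rfl⟩ := List.append_of_mem ((List.mem_cons.1 h').resolve_left hne.symm)
    exact Or.inl ⟨l₁, a, b, rfl⟩

lemma exists_last {β : Type} (A : β → Prop) {l : List β} (h : ∃ x ∈ l, A x) :
    ∃ l₁ x l₂, l = l₁ ++ x :: l₂ ∧ A x ∧ ∀ y ∈ l₂, ¬ A y := by
  induction l with
  | nil => simp at h
  | cons a l ih =>
    by_cases g : ∃ x ∈ l, A x
    · obtain ⟨l₁, x, l₂, rfl, g1, g2⟩ := ih g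
      exact ⟨a :: l₁, x, l₂, rfl, g1, g2⟩
    · obtain ⟨x, hx, g1⟩ := h
      rcases List.mem_cons.1 hx with rfl | hx
      · exact ⟨[], x, l, rfl, g1, fun y hy g2 => g ⟨y, hy, g2⟩⟩
      · exact absurd ⟨x, hx, g1⟩ g

end Pool.Agent.MP_e50591_al.H22
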